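import Pool.Agent.H822.Kak

/-!
# Integer lines with `p` points: the maximal inequality
-/

set_option autoImplicit false

open Finset
open scoped ENNReal

namespace Pool.Agent.H668.Lat
open Pool.Agent.H822 (KC KC_nonneg kak_chart)

/-- reduction of an integer vector modulo `p` -/
def red {d : ℕ} (p : ℕ) (z : Fin d → ℤ) : Fin d → ZMod p := fun i => (z i : ZMod p)

theorem core_aux {d : ℕ} (hd : 1 ≤ d) (p : ℕ) [Fact p.Prime]
    (h : ℕ → (Fin d → ℤ) → ℝ≥0∞) (hfin : ∑ j ∈ range p, ∑' w, (h j w) ^ (d + 1) ≠ ⊤)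
    (A : Finset (Fin d → ℤ)) (m : ℕ)
    (hA : ∀ z : Fin d → ZMod p, (A.filter fun k => red p k = z).card ≤ m)
    (y : (Fin d → ℤ) → (Fin d → ℤ)) :
    ∑ k ∈ A, (∑ j ∈ range p, h j (y k + (j : ℤ) • k)) ^ (d + 1) ≤
      m * ENNReal.ofReal (KC d) * (p : ℝ≥0∞) ^ d *
        ∑ j ∈ range p, ∑' w, (h j w) ^ (d + 1) := by
  classical
  have hp0 : 0 < p := (Fact.out : p.Prime).pos
  have : NeZero p := ⟨hp0.ne'⟩
  -- the reduced function
  set g : ZMod p → (Fin d → ZMod p) → ℝ≥0∞ := fun s z =>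
    ⨆ w : {w : Fin d → ℤ // red p w = z}, h s.val w with hg
  have hgle : ∀ s z w, red p w = z → h s.val w ≤ g s z := by
    intro s z w hw
    rw [hg]
    exact le_iSup (fun w : {w : Fin d → ℤ // red p w = z} => h s.val w) ⟨w, hw⟩
  have hgpow : ∀ s z, g s z ^ (d + 1) ≤ ∑' w : {w : Fin d → ℤ // red p w = z}, (h s.val w) ^ (d + 1) := by
    intro s z
    rw [hg]
    dsimp only
    have hmono : Monotone fun x : ℝ≥0∞ => x ^ (d + 1) := fun a b hab => pow_le_pow_left' hab _
    have hcont : Continuous fun x : ℝ≥0∞ => x ^ (d + 1) := ENNReal.continuous_pow _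
    have hbot : (fun x : ℝ≥0∞ => x ^ (d + 1)) ⊥ = ⊥ := by simp
    have e := hmono.map_iSup_of_continuousAt (f := fun x : ℝ≥0∞ => x ^ (d + 1))
      (g := fun w : {w : Fin d → ℤ // red p w = z} => h s.val w) hcont.continuousAt hbot
    rw [e]
    exact iSup_le fun w => ENNReal.le_tsum (f := fun w : {w : Fin d → ℤ // red p w = z} =>
      (h s.val w) ^ (d + 1)) w
  have hgsum : ∀ s, ∑ z : Fin d → ZMod p, g s z ^ (d + 1) ≤ ∑' w, (h s.val w) ^ (d + 1) := by
    intro s
    calc ∑ z : Fin d → ZMod p, g s z ^ (d + 1)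
        ≤ ∑ z : Fin d → ZMod p, ∑' w : {w : Fin d → ℤ // red p w = z}, (h s.val w) ^ (d + 1) :=
          Finset.sum_le_sum fun z _ => hgpow s z
      _ = ∑' z : Fin d → ZMod p, ∑' w : {w : Fin d → ℤ // red p w = z}, (h s.val w) ^ (d + 1) :=
          (tsum_fintype _).symm
      _ = ∑' w, (h s.val w) ^ (d + 1) := by
          rw [← (Equiv.sigmaFiberEquiv (red (d := d) p)).tsum_eq fun w => (h s.val w) ^ (d + 1)]
          exact (ENNReal.tsum_sigma' fun c : (Σ z : Fin d → ZMod p, {w : Fin d → ℤ // red p w = z}) =>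
            (h s.val ((Equiv.sigmaFiberEquiv (red (d := d) p)) c)) ^ (d + 1)).symm
  have hrange : ∀ φ : ℕ → ℝ≥0∞, ∑ s : ZMod p, φ s.val = ∑ j ∈ range p, φ j := by
    intro φ
    refine Finset.sum_bij (fun (s : ZMod p) _ => s.val) ?_ ?_ ?_ ?_
    · intro s _
      exact Finset.mem_range.2 (ZMod.val_lt s)
    · intro s _ s' _ hss
      exact ZMod.val_injective p hss
    · intro j hj
      refine ⟨(j : ZMod p), Finset.mem_univ _, ?_⟩
      exact ZMod.val_cast_of_lt (Finset.mem_range.1 hj)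
    · intro s _
      rfl
  have htot : ∑ s : ZMod p, ∑ z : Fin d → ZMod p, g s z ^ (d + 1) ≤
      ∑ j ∈ range p, ∑' w, (h j w) ^ (d + 1) := by
    rw [← hrange fun j => ∑' w, (h j w) ^ (d + 1)]
    exact Finset.sum_le_sum fun s _ => hgsum s
  have hgfin : ∀ s z, g s z ≠ ⊤ := by
    intro s z htop
    apply hfin
    refine top_le_iff.1 (le_trans ?_ htot)
    have h1 : g s z ^ (d + 1) ≤ ∑ z : Fin d → ZMod p, g s z ^ (d + 1) :=
      Finset.single_le_sum (f := fun z => g s z ^ (d + 1)) (fun _ _ => zero_le) (Finset.mem_univ z)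
    have h2 : ∑ z : Fin d → ZMod p, g s z ^ (d + 1) ≤
        ∑ s : ZMod p, ∑ z : Fin d → ZMod p, g s z ^ (d + 1) :=
      Finset.single_le_sum (f := fun s => ∑ z : Fin d → ZMod p, g s z ^ (d + 1))
        (fun _ _ => zero_le) (Finset.mem_univ s)
    refine le_trans ?_ (h1.trans h2)
    rw [htop]
    simp
  -- sums along the lines
  set Φ : (Fin d → ℤ) → ℝ≥0∞ := fun k => ∑ j ∈ range p, h j (y k + (j : ℤ) • k) with hΦ
  have hΦle : ∀ k, Φ k ≤ ∑ s : ZMod p, g s (red p (y k) + s • red p k) := by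
    intro k
    rw [hΦ]
    dsimp only
    rw [← hrange fun j => h j (y k + (j : ℤ) • k)]
    refine Finset.sum_le_sum fun s _ => hgle s _ _ ?_
    funext i
    have e : (((s.val : ℕ) : ℤ) : ZMod p) = s := by
      rw [Int.cast_natCast, ZMod.natCast_zmod_val]
    simp only [red, Pi.add_apply, Pi.smul_apply, smul_eq_mul]
    rw [Int.cast_add, Int.cast_mul, e]
  -- representatives
  have hrep : ∀ z : Fin d → ZMod p, ∃ b : Fin d → ZMod p, ∀ k ∈ A, red p k = z →
      Φ k ≤ ∑ s : ZMod p, g s (b + s • z) := by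
    intro z
    by_cases hne : (A.filter fun k => red p k = z).Nonempty
    · obtain ⟨k₀, hk₀, hmax⟩ := Finset.exists_max_image _ Φ hne
      refine ⟨red p (y k₀), fun k hk hkz => ?_⟩
      have h1 := hmax k (Finset.mem_filter.2 ⟨hk, hkz⟩)
      refine h1.trans ((hΦle k₀).trans (le_of_eq ?_))
      rw [(Finset.mem_filter.1 hk₀).2]
    · refine ⟨0, fun k hk hkz => absurd ⟨k, Finset.mem_filter.2 ⟨hk, hkz⟩⟩ hne⟩
  choose b hb using hrep
  have hmain : ∑ z : Fin d → ZMod p, (∑ s : ZMod p, g s (b z + s • z)) ^ (d + 1) ≤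
      ENNReal.ofReal (KC d) * (p : ℝ≥0∞) ^ d *
        ∑ s : ZMod p, ∑ z : Fin d → ZMod p, g s z ^ (d + 1) := by
    have key := kak_chart (F := ZMod p) hd (fun s z => (g s z).toReal)
      (fun s z => ENNReal.toReal_nonneg) b
    have e1 : ∑ z : Fin d → ZMod p, (∑ s : ZMod p, g s (b z + s • z)) ^ (d + 1) =
        ENNReal.ofReal (∑ z : Fin d → ZMod p,
          (∑ s : ZMod p, (g s (b z + s • z)).toReal) ^ (d + 1)) := by
      rw [ENNReal.ofReal_sum_of_nonneg fun z _ => by positivity]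
      refine Finset.sum_congr rfl fun z _ => ?_
      rw [ENNReal.ofReal_pow (Finset.sum_nonneg fun s _ => ENNReal.toReal_nonneg),
        ENNReal.ofReal_sum_of_nonneg fun s _ => ENNReal.toReal_nonneg]
      congr 1
      exact Finset.sum_congr rfl fun s _ => (ENNReal.ofReal_toReal (hgfin _ _)).symm
    have e2 : ENNReal.ofReal (KC d) * (p : ℝ≥0∞) ^ d *
        ∑ s : ZMod p, ∑ z : Fin d → ZMod p, g s z ^ (d + 1) =
        ENNReal.ofReal (KC d * ((Fintype.card (ZMod p) : ℝ) ^ d *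
          ∑ s : ZMod p, ∑ z : Fin d → ZMod p, (g s z).toReal ^ (d + 1))) := by
      rw [ENNReal.ofReal_mul (KC_nonneg d), ENNReal.ofReal_mul (by positivity),
        ENNReal.ofReal_pow (Nat.cast_nonneg _), ENNReal.ofReal_natCast, ZMod.card,
        ENNReal.ofReal_sum_of_nonneg fun s _ => Finset.sum_nonneg fun z _ => by positivity,
        mul_assoc]
      congr 2
      refine Finset.sum_congr rfl fun s _ => ?_
      rw [ENNReal.ofReal_sum_of_nonneg fun z _ => by positivity]
      refine Finset.sum_congr rfl fun z _ => ?_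
      rw [ENNReal.ofReal_pow ENNReal.toReal_nonneg, ENNReal.ofReal_toReal (hgfin _ _)]
    rw [e1, e2]
    exact ENNReal.ofReal_le_ofReal key
  calc ∑ k ∈ A, Φ k ^ (d + 1)
      = ∑ z : Fin d → ZMod p, ∑ k ∈ A.filter (fun k => red p k = z), Φ k ^ (d + 1) :=
        (Finset.sum_fiberwise A (red p) fun k => Φ k ^ (d + 1)).symm
    _ ≤ ∑ z : Fin d → ZMod p, (m : ℝ≥0∞) * (∑ s : ZMod p, g s (b z + s • z)) ^ (d + 1) := by
        refine Finset.sum_le_sum fun z _ => ?_
        calc ∑ k ∈ A.filter (fun k => red p k = z), Φ k ^ (d + 1)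
            ≤ ∑ _k ∈ A.filter (fun k => red p k = z),
                (∑ s : ZMod p, g s (b z + s • z)) ^ (d + 1) := by
              refine Finset.sum_le_sum fun k hk => ?_
              rw [Finset.mem_filter] at hk
              exact pow_le_pow_left' (hb z k hk.1 hk.2) _
          _ = ((A.filter (fun k => red p k = z)).card : ℝ≥0∞) *
                (∑ s : ZMod p, g s (b z + s • z)) ^ (d + 1) := by
              rw [Finset.sum_const, nsmul_eq_mul]
          _ ≤ _ := by
              gcongr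
              exact hA z
    _ = (m : ℝ≥0∞) * ∑ z : Fin d → ZMod p, (∑ s : ZMod p, g s (b z + s • z)) ^ (d + 1) := by
        rw [Finset.mul_sum]
    _ ≤ (m : ℝ≥0∞) * (ENNReal.ofReal (KC d) * (p : ℝ≥0∞) ^ d *
          ∑ j ∈ range p, ∑' w, (h j w) ^ (d + 1)) := by
        gcongr
        exact hmain.trans (by gcongr)
    _ = _ := by ring

theorem KC_pos (d : ℕ) : 0 < KC d := by unfold KC; positivity

/-- **Integer lines.**  At most `m` directions in each class modulo `p`, one line in each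
direction, `p` consecutive points on each line. -/
theorem core {d : ℕ} (hd : 1 ≤ d) (p : ℕ) [Fact p.Prime]
    (h : ℕ → (Fin d → ℤ) → ℝ≥0∞)
    (A : Finset (Fin d → ℤ)) (m : ℕ)
    (hA : ∀ z : Fin d → ZMod p, (A.filter fun k => red p k = z).card ≤ m)
    (y : (Fin d → ℤ) → (Fin d → ℤ)) :
    ∑ k ∈ A, (∑ j ∈ range p, h j (y k + (j : ℤ) • k)) ^ (d + 1) ≤
      m * ENNReal.ofReal (KC d) * (p : ℝ≥0∞) ^ d *
        ∑ j ∈ range p, ∑' w, (h j w) ^ (d + 1) := by
  by_cases hfin : ∑ j ∈ range p, ∑' w, (h j w) ^ (d + 1) = ⊤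
  · rcases A.eq_empty_or_nonempty with rfl | ⟨k, hk⟩
    · simp
    · have hm : m ≠ 0 := by
        rintro rfl
        have := hA (red p k)
        rw [Nat.le_zero, Finset.card_eq_zero] at this
        have h2 : k ∈ A.filter fun k' => red p k' = red p k := Finset.mem_filter.2 ⟨hk, rfl⟩
        rw [this] at h2
        exact absurd h2 (Finset.notMem_empty _)
      rw [hfin]
      have hne : (m : ℝ≥0∞) * ENNReal.ofReal (KC d) * (p : ℝ≥0∞) ^ d ≠ 0 := by
        have h1 : (m : ℝ≥0∞) ≠ 0 := by exact_mod_cast hm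
        have h2 : ENNReal.ofReal (KC d) ≠ 0 := by
          rw [ne_eq, ENNReal.ofReal_eq_zero, not_le]; exact KC_pos d
        have h3 : (p : ℝ≥0∞) ^ d ≠ 0 := by
          apply pow_ne_zero
          exact_mod_cast (Fact.out : p.Prime).ne_zero
        exact mul_ne_zero (mul_ne_zero h1 h2) h3
      rw [ENNReal.mul_top hne]
      exact le_top
  · exact core_aux hd p h hfin A m hA y

end Pool.Agent.H668.Lat
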