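import Pool.Agent.H668.Lat.Net

/-!
# Lattice nets: families of tubes
-/

set_option autoImplicit false

open Finset MeasureTheory
open scoped ENNReal

namespace Pool.Agent.H668.Lat
open Pool.Agent.W46.KK (tube)

theorem tube_neg {n : ℕ} (δ : ℝ) (a e : EuclideanSpace ℝ (Fin n)) : tube δ a (-e) = tube δ a e := by
  ext y
  unfold tube
  simp only [Set.mem_ofPred_eq, inner_neg_right, abs_neg, neg_smul, smul_neg, neg_neg]

/-- few separated unit vectors near a given one -/
theorem card_sep {n : ℕ} {δ : ℝ} (hδ : 0 < δ) (c : EuclideanSpace ℝ (Fin n)) {ι : Type}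
    (s : Finset ι) (e : ι → EuclideanSpace ℝ (Fin n)) (hc : ∀ i ∈ s, ‖e i - c‖ ≤ δ)
    (hsep : ∀ i ∈ s, ∀ j ∈ s, i ≠ j → δ ≤ ‖e i - e j‖) : s.card ≤ 5 ^ n := by
  classical
  have hinj : Set.InjOn (fun i => δ⁻¹ • (e i - c)) (s : Set ι) := by
    intro i hi j hj hij
    by_contra hne
    have h1 := hsep i hi j hj hne
    have h2 : e i - c = e j - c := by
      have h3 : δ • (δ⁻¹ • (e i - c)) = δ • (δ⁻¹ • (e j - c)) := by
        have : δ⁻¹ • (e i - c) = δ⁻¹ • (e j - c) := hij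
        rw [this]
      rwa [smul_smul, smul_smul, mul_inv_cancel₀ hδ.ne', one_smul, one_smul] at h3
    have h4 : e i - e j = 0 := by
      have : e i - e j = (e i - c) - (e j - c) := by abel
      rw [this, h2, sub_self]
    rw [h4, norm_zero] at h1
    linarith
  rw [← Finset.card_image_of_injOn hinj]
  have h := Besicovitch.card_le_of_separated (s.image fun i => δ⁻¹ • (e i - c)) ?_ ?_
  · rwa [finrank_euclideanSpace_fin] at h
  · intro x hx
    obtain ⟨i, hi, rfl⟩ := Finset.mem_image.1 hx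
    rw [norm_smul, norm_inv, Real.norm_eq_abs, abs_of_pos hδ]
    have h1 := hc i hi
    have h2 : δ⁻¹ * ‖e i - c‖ ≤ δ⁻¹ * δ := by gcongr
    rw [inv_mul_cancel₀ hδ.ne'] at h2
    linarith
  · intro x hx y hy hxy
    obtain ⟨i, hi, rfl⟩ := Finset.mem_image.1 hx
    obtain ⟨j, hj, rfl⟩ := Finset.mem_image.1 hy
    have hne : i ≠ j := by
      rintro rfl
      exact hxy rfl
    rw [← smul_sub, norm_smul, norm_inv, Real.norm_eq_abs, abs_of_pos hδ]
    have h1 := hsep i hi j hj hne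
    have h3 : e i - c - (e j - c) = e i - e j := by abel
    rw [h3]
    calc (1 : ℝ) = δ⁻¹ * δ := (inv_mul_cancel₀ hδ.ne').symm
      _ ≤ δ⁻¹ * ‖e i - e j‖ := by gcongr

/-- families of tubes with separated directions near a lattice net -/
theorem fam_core (d : ℕ) (hd : 1 ≤ d) : ∃ C : ℝ, 0 < C ∧ ∀ δ : ℝ, 0 < δ → δ < 1 →
    ∀ (M : (Fin d → ℝ) →ₗ[ℝ] (Fin d → ℝ)), (∀ x, √δ * ‖x‖ ≤ ‖M x‖) → ∀ (w₀ : Fin d → ℝ)
    (ι : Type) [Fintype ι] (a e : ι → EuclideanSpace ℝ (Fin (d + 1))), (∀ i, ‖e i‖ = 1) →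
    (∀ i j, i ≠ j → δ ≤ ‖e i - e j‖) →
    (∀ i, ∃ k : Fin d → ℤ, ‖w₀ + M fun l => (k l : ℝ)‖ ≤ 1 ∧
      (‖e i - dir (w₀ + M fun l => (k l : ℝ))‖ ≤ δ ∨
        ‖e i + dir (w₀ + M fun l => (k l : ℝ))‖ ≤ δ)) →
    ∀ (f : EuclideanSpace ℝ (Fin (d + 1)) → ℝ≥0∞), Measurable f →
    ∑ i, (∫⁻ y in tube δ (a i) (e i), f y) ^ (d + 1) ≤
      ENNReal.ofReal (C * δ ^ (d * d)) * ∫⁻ y, f y ^ (d + 1) := by
  classical
  obtain ⟨C, hC, hnet⟩ := net_core d hd
  refine ⟨2 * 5 ^ (d + 1) * C, by positivity, ?_⟩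
  intro δ hδ hδ1 M hM w₀ ι _ a e he1 hsep hnear f hf
  choose k hk1 hk2 using hnear
  -- signs
  set e' : ι → EuclideanSpace ℝ (Fin (d + 1)) := fun i =>
    if ‖e i - dir (w₀ + M fun l => (k i l : ℝ))‖ ≤ δ then e i else -e i with he'
  have he'1 : ∀ i, ‖e' i‖ = 1 := by
    intro i
    simp only [he']
    split_ifs
    · exact he1 i
    · rw [norm_neg]; exact he1 i
  have he'2 : ∀ i, ‖e' i - dir (w₀ + M fun l => (k i l : ℝ))‖ ≤ δ := by
    intro i
    simp only [he']
    split_ifs with h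
    · exact h
    · rcases hk2 i with h1 | h1
      · exact absurd h1 h
      · have h2 : -e i - dir (w₀ + M fun l => (k i l : ℝ)) =
            -(e i + dir (w₀ + M fun l => (k i l : ℝ))) := by abel
        rw [h2, norm_neg]
        exact h1
  have htube : ∀ i, tube δ (a i) (e' i) = tube δ (a i) (e i) := by
    intro i
    simp only [he']
    split_ifs
    · rfl
    · exact tube_neg _ _ _
  set Φ : ι → ℝ≥0∞ := fun i => (∫⁻ y in tube δ (a i) (e i), f y) ^ (d + 1) with hΦ
  set A : Finset (Fin d → ℤ) := Finset.univ.image k with hA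
  -- the fibres
  have hfib : ∀ κ : Fin d → ℤ, (Finset.univ.filter fun i => k i = κ).card ≤ 2 * 5 ^ (d + 1) := by
    intro κ
    have h1 : (Finset.univ.filter fun i => k i = κ) =
        (Finset.univ.filter fun i => k i = κ ∧ ‖e i - dir (w₀ + M fun l => (k i l : ℝ))‖ ≤ δ) ∪
        (Finset.univ.filter fun i => k i = κ ∧ ¬ ‖e i - dir (w₀ + M fun l => (k i l : ℝ))‖ ≤ δ) := by
      ext i
      simp only [Finset.mem_filter, Finset.mem_univ, true_and, Finset.mem_union]
      tauto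
    rw [h1]
    refine (Finset.card_union_le _ _).trans ?_
    have h2 : (Finset.univ.filter fun i => k i = κ ∧
        ‖e i - dir (w₀ + M fun l => (k i l : ℝ))‖ ≤ δ).card ≤ 5 ^ (d + 1) := by
      refine card_sep hδ (dir (w₀ + M fun l => (κ l : ℝ))) _ e ?_ ?_
      · intro i hi
        obtain ⟨-, h3, h4⟩ := Finset.mem_filter.1 hi
        rwa [h3] at h4
      · intro i _ j _ hij
        exact hsep i j hij
    have h3 : (Finset.univ.filter fun i => k i = κ ∧
        ¬ ‖e i - dir (w₀ + M fun l => (k i l : ℝ))‖ ≤ δ).card ≤ 5 ^ (d + 1) := by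
      refine card_sep hδ (-dir (w₀ + M fun l => (κ l : ℝ))) _ e ?_ ?_
      · intro i hi
        obtain ⟨-, h3, h4⟩ := Finset.mem_filter.1 hi
        rcases hk2 i with h5 | h5
        · exact absurd h5 h4
        · rw [h3] at h5
          rwa [sub_neg_eq_add]
      · intro i _ j _ hij
        exact hsep i j hij
    omega
  -- representatives
  have hrep : ∀ κ : Fin d → ℤ, ∃ i : Option ι, ∀ j, k j = κ → ∃ i', i = some i' ∧ k i' = κ ∧
      Φ j ≤ Φ i' := by
    intro κ
    rcases (Finset.univ.filter fun i => k i = κ).eq_empty_or_nonempty with h | h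
    · refine ⟨none, fun j hj => ?_⟩
      exact absurd (Finset.mem_filter.2 ⟨Finset.mem_univ j, hj⟩) (by rw [h]; exact Finset.notMem_empty _)
    · obtain ⟨i', hi', hmax⟩ := Finset.exists_max_image _ Φ h
      refine ⟨some i', fun j hj => ⟨i', rfl, (Finset.mem_filter.1 hi').2, ?_⟩⟩
      exact hmax j (Finset.mem_filter.2 ⟨Finset.mem_univ j, hj⟩)
  choose r hr using hrep
  set a'' : (Fin d → ℤ) → EuclideanSpace ℝ (Fin (d + 1)) := fun κ => (r κ).elim 0 a with ha''
  set e'' : (Fin d → ℤ) → EuclideanSpace ℝ (Fin (d + 1)) := fun κ => (r κ).elim 0 e' with he''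
  have hmem : ∀ κ ∈ A, ∃ i', r κ = some i' ∧ k i' = κ := by
    intro κ hκ
    obtain ⟨j, -, hj⟩ := Finset.mem_image.1 hκ
    obtain ⟨i', h1, h2, -⟩ := hr κ j hj
    exact ⟨i', h1, h2⟩
  have key := hnet δ hδ hδ1 M hM w₀ A (by
      intro κ hκ
      obtain ⟨i', -, h2⟩ := hmem κ hκ
      rw [← h2]
      exact hk1 i') a'' e'' (by
      intro κ hκ
      obtain ⟨i', h1, -⟩ := hmem κ hκ
      simp only [he'', h1, Option.elim_some]
      exact he'1 i') (by
      intro κ hκ
      obtain ⟨i', h1, h2⟩ := hmem κ hκ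
      simp only [he'', h1, Option.elim_some]
      rw [← h2]
      exact he'2 i') f hf
  calc ∑ i, Φ i = ∑ κ ∈ A, ∑ i ∈ Finset.univ.filter (fun i => k i = κ), Φ i :=
        (Finset.sum_fiberwise_of_maps_to (fun i _ => Finset.mem_image_of_mem _ (Finset.mem_univ i))
          _).symm
    _ ≤ ∑ κ ∈ A, ((2 * 5 ^ (d + 1) : ℕ) : ℝ≥0∞) *
          (∫⁻ y in tube δ (a'' κ) (e'' κ), f y) ^ (d + 1) := by
        refine Finset.sum_le_sum fun κ hκ => ?_
        calc ∑ i ∈ Finset.univ.filter (fun i => k i = κ), Φ i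
            ≤ ∑ _i ∈ Finset.univ.filter (fun i => k i = κ),
                (∫⁻ y in tube δ (a'' κ) (e'' κ), f y) ^ (d + 1) := by
              refine Finset.sum_le_sum fun i hi => ?_
              obtain ⟨i', h1, h2, h3⟩ := hr κ i (Finset.mem_filter.1 hi).2
              simp only [ha'', he'', h1, Option.elim_some]
              rw [htube]
              exact h3
          _ = ((Finset.univ.filter (fun i => k i = κ)).card : ℝ≥0∞) *
                (∫⁻ y in tube δ (a'' κ) (e'' κ), f y) ^ (d + 1) := by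
              rw [Finset.sum_const, nsmul_eq_mul]
          _ ≤ _ := by
              gcongr
              exact hfib κ
    _ = ((2 * 5 ^ (d + 1) : ℕ) : ℝ≥0∞) * ∑ κ ∈ A,
          (∫⁻ y in tube δ (a'' κ) (e'' κ), f y) ^ (d + 1) := by rw [Finset.mul_sum]
    _ ≤ ((2 * 5 ^ (d + 1) : ℕ) : ℝ≥0∞) * (ENNReal.ofReal (C * δ ^ (d * d)) *
          ∫⁻ y, f y ^ (d + 1)) := by gcongr
    _ = _ := by
        rw [← mul_assoc, ← ENNReal.ofReal_natCast, ← ENNReal.ofReal_mul (by positivity)]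
        congr 2
        push_cast
        ring

theorem tube_measurable {n : ℕ} (δ : ℝ) (a e : EuclideanSpace ℝ (Fin n)) :
    MeasurableSet (tube δ a e) := by
  have h1 : Continuous fun y : EuclideanSpace ℝ (Fin n) => |(inner ℝ (y - a) e : ℝ)| := by fun_prop
  have h2 : Continuous fun y : EuclideanSpace ℝ (Fin n) =>
      ‖(y - a) - (inner ℝ (y - a) e : ℝ) • e‖ := by fun_prop
  exact (isClosed_le h1 continuous_const).inter (isClosed_le h2 continuous_const) |>.measurableSet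

/-- the dual inequality at the exponent `(d + 1) / d` -/
theorem dual_end (d : ℕ) (hd : 1 ≤ d) {C δ : ℝ} (hC : 0 < C) (hδ : 0 < δ) (ι : Type) [Fintype ι]
    (a e : ι → EuclideanSpace ℝ (Fin (d + 1)))
    (hfin : ∀ i, volume (tube δ (a i) (e i)) ≠ ⊤)
    (h : ∀ (f : EuclideanSpace ℝ (Fin (d + 1)) → ℝ≥0∞), Measurable f →
      ∑ i, (∫⁻ y in tube δ (a i) (e i), f y) ^ (d + 1) ≤
        ENNReal.ofReal (C * δ ^ (d * d)) * ∫⁻ y, f y ^ (d + 1)) :
    ∫⁻ x, (∑ i, (tube δ (a i) (e i)).indicator (fun _ => (1 : ℝ≥0∞)) x) ^ (1 + 1 / (d : ℝ)) ≤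
      ENNReal.ofReal (C ^ (1 / (d : ℝ)) * δ ^ (d : ℝ) * Fintype.card ι) := by
  classical
  have hd0 : (0 : ℝ) < d := by exact_mod_cast hd
  set F : EuclideanSpace ℝ (Fin (d + 1)) → ℝ≥0∞ := fun x =>
    ∑ i, (tube δ (a i) (e i)).indicator (fun _ => (1 : ℝ≥0∞)) x with hF
  have hFm : Measurable F := Finset.measurable_fun_sum _ fun i _ =>
    measurable_const.indicator (tube_measurable _ _ _)
  set f : EuclideanSpace ℝ (Fin (d + 1)) → ℝ≥0∞ := fun x => F x ^ (1 / (d : ℝ)) with hf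
  have hfm : Measurable f := hFm.pow_const _
  set X : ℝ≥0∞ := ∫⁻ x, F x ^ (1 + 1 / (d : ℝ)) with hX
  set N : ℕ := Fintype.card ι with hN
  have hfpow : ∀ x, f x ^ (d + 1) = F x ^ (1 + 1 / (d : ℝ)) := by
    intro x
    rw [hf]
    dsimp only
    rw [← ENNReal.rpow_natCast, ← ENNReal.rpow_mul]
    congr 1
    push_cast
    field_simp
  have hmul : ∀ x, F x ^ (1 + 1 / (d : ℝ)) = F x * f x := by
    intro x
    rw [ENNReal.rpow_add_of_nonneg _ _ zero_le_one (by positivity), ENNReal.rpow_one]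
  have hsum : X = ∑ i, ∫⁻ y in tube δ (a i) (e i), f y := by
    rw [hX]
    simp_rw [hmul]
    rw [hF]
    simp_rw [Finset.sum_mul]
    rw [lintegral_finsetSum]
    · refine Finset.sum_congr rfl fun i _ => ?_
      rw [← lintegral_indicator (tube_measurable _ _ _)]
      refine lintegral_congr fun x => ?_
      by_cases hx : x ∈ tube δ (a i) (e i)
      · rw [Set.indicator_of_mem hx, Set.indicator_of_mem hx, one_mul]
      · rw [Set.indicator_of_notMem hx, Set.indicator_of_notMem hx, zero_mul]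
    · intro i _
      exact (measurable_const.indicator (tube_measurable _ _ _)).mul hfm
  have hFle : ∀ x, F x ≤ N := by
    intro x
    calc F x ≤ ∑ _i : ι, (1 : ℝ≥0∞) := by
          rw [hF]
          refine Finset.sum_le_sum fun i _ => ?_
          exact Set.indicator_le_self' (fun _ _ => zero_le) x |>.trans (by simp)
      _ = N := by rw [Finset.sum_const, Finset.card_univ, nsmul_eq_mul, mul_one]
  have hXtop : X ≠ ⊤ := by
    rw [hsum]
    rw [ENNReal.sum_ne_top]
    intro i _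
    have h1 : ∫⁻ y in tube δ (a i) (e i), f y ≤
        ∫⁻ _y in tube δ (a i) (e i), (N : ℝ≥0∞) ^ (1 / (d : ℝ)) := by
      refine lintegral_mono fun y => ?_
      exact ENNReal.rpow_le_rpow (hFle y) (by positivity)
    refine ne_top_of_le_ne_top ?_ h1
    rw [lintegral_const, Measure.restrict_apply_univ]
    exact ENNReal.mul_ne_top (ENNReal.rpow_ne_top_of_nonneg (by positivity)
      (ENNReal.natCast_ne_top N)) (hfin i)
  have hpow : X ^ (d + 1) ≤ (N : ℝ≥0∞) ^ d * (ENNReal.ofReal (C * δ ^ (d * d)) * X) := by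
    have h3 := ENNReal.rpow_sum_le_const_mul_sum_rpow (Finset.univ : Finset ι)
      (fun i => ∫⁻ y in tube δ (a i) (e i), f y) (p := ((d + 1 : ℕ) : ℝ)) (by push_cast; linarith)
    simp only [ENNReal.rpow_natCast, Finset.card_univ] at h3
    rw [← hsum] at h3
    refine h3.trans ?_
    have e1 : (((d + 1 : ℕ) : ℝ) - 1) = (d : ℝ) := by push_cast; ring
    rw [e1, ENNReal.rpow_natCast]
    gcongr
    refine (h f hfm).trans (le_of_eq ?_)
    congr 1
    exact lintegral_congr hfpow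
  -- cancel
  have hfinal : X ^ d ≤ (N : ℝ≥0∞) ^ d * ENNReal.ofReal (C * δ ^ (d * d)) := by
    rcases eq_or_ne X 0 with h0 | h0
    · rw [h0, zero_pow (by omega)]
      exact zero_le
    · rw [pow_succ, ← mul_assoc] at hpow
      exact (ENNReal.mul_le_mul_iff_left h0 hXtop).1 hpow
  have h4 := ENNReal.rpow_le_rpow hfinal (by positivity : 0 ≤ 1 / (d : ℝ))
  rw [← ENNReal.rpow_natCast, ← ENNReal.rpow_mul, mul_one_div_cancel hd0.ne', ENNReal.rpow_one]
    at h4
  refine h4.trans (le_of_eq ?_)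
  rw [← ENNReal.ofReal_natCast, ← ENNReal.ofReal_pow (by positivity),
    ← ENNReal.ofReal_mul (by positivity), ENNReal.ofReal_rpow_of_nonneg (by positivity)
      (by positivity)]
  congr 1
  rw [Real.mul_rpow (by positivity) (by positivity), Real.mul_rpow (by positivity) (by positivity),
    ← Real.rpow_natCast (N : ℝ) d, ← Real.rpow_mul (by positivity), mul_one_div_cancel hd0.ne',
    Real.rpow_one, ← Real.rpow_natCast δ (d * d), ← Real.rpow_mul hδ.le]
  have e2 : ((d * d : ℕ) : ℝ) * (1 / d) = d := by push_cast; field_simp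
  rw [e2]
  ring

/-- all exponents `q ≥ (d + 1) / d` -/
theorem dual_all (d : ℕ) (hd : 1 ≤ d) : ∃ C : ℝ, 1 ≤ C ∧ ∀ q : ℝ, 1 + 1 / (d : ℝ) ≤ q →
    ∀ δ : ℝ, 0 < δ → δ < 1 →
    ∀ (M : (Fin d → ℝ) →ₗ[ℝ] (Fin d → ℝ)), (∀ x, √δ * ‖x‖ ≤ ‖M x‖) → ∀ (w₀ : Fin d → ℝ)
    (ι : Type) [Fintype ι] (a e : ι → EuclideanSpace ℝ (Fin (d + 1))), (∀ i, ‖e i‖ = 1) →
    (∀ i j, i ≠ j → δ ≤ ‖e i - e j‖) →
    (∀ i, ∃ k : Fin d → ℤ, ‖w₀ + M fun l => (k l : ℝ)‖ ≤ 1 ∧
      (‖e i - dir (w₀ + M fun l => (k l : ℝ))‖ ≤ δ ∨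
        ‖e i + dir (w₀ + M fun l => (k l : ℝ))‖ ≤ δ)) →
    ∫⁻ x, (∑ i, (tube δ (a i) (e i)).indicator (fun _ => (1 : ℝ≥0∞)) x) ^ q ≤
      ENNReal.ofReal (C * δ ^ (d : ℝ) * (Fintype.card ι : ℝ) ^ (q - 1 / (d : ℝ))) := by
  classical
  obtain ⟨C, hC, hfam⟩ := fam_core d hd
  have hd0 : (0 : ℝ) < d := by exact_mod_cast hd
  refine ⟨1 + C ^ (1 / (d : ℝ)), by have : 0 < C ^ (1 / (d : ℝ)) := by positivity
                                    linarith, ?_⟩
  intro q hq δ hδ hδ1 M hM w₀ ι _ a e he1 hsep hnear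
  obtain ⟨κ, hκ, hvol⟩ := Pool.Agent.W131.HM.VOL d
  have hend := dual_end d hd hC hδ ι a e (fun i => (hvol (a i) (e i) δ (he1 i) hδ hδ1.le).2)
    (hfam δ hδ hδ1 M hM w₀ ι a e he1 hsep hnear)
  set F : EuclideanSpace ℝ (Fin (d + 1)) → ℝ≥0∞ := fun x =>
    ∑ i, (tube δ (a i) (e i)).indicator (fun _ => (1 : ℝ≥0∞)) x with hF
  set N : ℕ := Fintype.card ι with hN
  have hFle : ∀ x, F x ≤ N := by
    intro x
    calc F x ≤ ∑ _i : ι, (1 : ℝ≥0∞) := by
          rw [hF]
          refine Finset.sum_le_sum fun i _ => ?_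
          exact Set.indicator_le_self' (fun _ _ => zero_le) x |>.trans (by simp)
      _ = N := by rw [Finset.sum_const, Finset.card_univ, nsmul_eq_mul, mul_one]
  rcases Nat.eq_zero_or_pos N with hN0 | hNpos
  · have hF0 : ∀ x, F x = 0 := by
      intro x
      have := hFle x
      rw [hN0] at this
      simpa using this
    have : ∀ x, F x ^ q = 0 := by
      intro x
      rw [hF0 x, ENNReal.zero_rpow_of_pos]
      have : 0 < 1 / (d : ℝ) := by positivity
      linarith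
    simp only [hF] at this
    simp only [this, lintegral_zero]
    exact zero_le
  · have hNr : (0 : ℝ) < N := by exact_mod_cast hNpos
    calc ∫⁻ x, F x ^ q
        ≤ ∫⁻ x, ENNReal.ofReal ((N : ℝ) ^ (q - (1 + 1 / (d : ℝ)))) * F x ^ (1 + 1 / (d : ℝ)) := by
          refine lintegral_mono fun x => ?_
          have hp : (0 : ℝ) < 1 + 1 / (d : ℝ) := by positivity
          have e1 : q = (q - (1 + 1 / (d : ℝ))) + (1 + 1 / (d : ℝ)) := by ring
          conv_lhs => rw [e1]
          rw [ENNReal.rpow_add_of_nonneg _ _ (by linarith) hp.le]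
          gcongr
          refine (ENNReal.rpow_le_rpow (hFle x) (by linarith)).trans (le_of_eq ?_)
          rw [← ENNReal.ofReal_natCast, ENNReal.ofReal_rpow_of_pos hNr]
      _ = ENNReal.ofReal ((N : ℝ) ^ (q - (1 + 1 / (d : ℝ)))) * ∫⁻ x, F x ^ (1 + 1 / (d : ℝ)) := by
          have hFm : Measurable F := Finset.measurable_fun_sum _ fun i _ =>
            measurable_const.indicator (tube_measurable _ _ _)
          rw [lintegral_const_mul _ (hFm.pow_const _)]
      _ ≤ ENNReal.ofReal ((N : ℝ) ^ (q - (1 + 1 / (d : ℝ)))) *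
            ENNReal.ofReal (C ^ (1 / (d : ℝ)) * δ ^ (d : ℝ) * N) := by gcongr
      _ ≤ _ := by
          rw [← ENNReal.ofReal_mul (by positivity)]
          apply ENNReal.ofReal_le_ofReal
          have e2 : (N : ℝ) ^ (q - 1 / (d : ℝ)) = (N : ℝ) ^ (q - (1 + 1 / (d : ℝ))) * N := by
            rw [← Real.rpow_add_one hNr.ne']
            congr 1
            ring
          rw [e2]
          have h1 : 0 < (N : ℝ) ^ (q - (1 + 1 / (d : ℝ))) := by positivity
          have h2 : 0 < δ ^ (d : ℝ) := by positivity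
          have h3 : 0 < (N : ℝ) ^ (q - (1 + 1 / (d : ℝ))) * δ ^ (d : ℝ) * N := by positivity
          nlinarith

end Pool.Agent.H668.Lat
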