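import Pool.Agent.H668.Lat.Dual

/-!
# Lattice directions: the maximal function
-/

set_option autoImplicit false

open Finset MeasureTheory
open scoped ENNReal

namespace Pool.Agent.H668.Lat
open Pool.Agent.H822 (KC KC_nonneg)
open Pool.Agent.W46.KK (tube)
open Pool.Agent.W46.HM (kmax)

theorem lint_biUnion_le {α β : Type*} [MeasurableSpace α] (μ : Measure α) (A : Finset β)
    (s : β → Set α) (F : α → ℝ≥0∞) :
    ∫⁻ x in ⋃ k ∈ A, s k, F x ∂μ ≤ ∑ k ∈ A, ∫⁻ x in s k, F x ∂μ := by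
  classical
  induction A using Finset.induction_on with
  | empty => simp
  | insert k A hk ih =>
    rw [Finset.set_biUnion_insert, Finset.sum_insert hk]
    exact (lintegral_union_le _ _ _).trans (by gcongr)

theorem norm_dir {d : ℕ} (v : Fin d → ℝ) : ‖dir v‖ = 1 := by
  rw [dir, norm_smul, norm_inv, norm_norm]
  exact inv_mul_cancel₀ (by have := one_le_vec v; positivity)

/-- the sum over the lattice directions of the supremum of the maximal function over a cap -/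
theorem sup_core (d : ℕ) (hd : 1 ≤ d) : ∃ C : ℝ, 0 < C ∧ ∀ (p : ℕ) [Fact p.Prime] (δ : ℝ), 0 < δ →
    δ < 1 → ∀ (M : (Fin d → ℝ) →ₗ[ℝ] (Fin d → ℝ)), (∀ x, p * (3 * δ) * ‖x‖ ≤ ‖M x‖) →
    ∀ (w₀ : Fin d → ℝ) (A : Finset (Fin d → ℤ)) (m : ℕ),
    (∀ z : Fin d → ZMod p, (A.filter fun k => red p k = z).card ≤ m) →
    (∀ k ∈ A, ‖w₀ + M fun i => (k i : ℝ)‖ ≤ 1) →
    ∀ (f : EuclideanSpace ℝ (Fin (d + 1)) → ℝ≥0∞), Measurable f →
    ∑ k ∈ A, (⨆ e : {e : EuclideanSpace ℝ (Fin (d + 1)) //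
        ‖e‖ = 1 ∧ ‖e - dir (w₀ + M fun i => (k i : ℝ))‖ ≤ δ}, kmax δ f e ^ (d + 1)) ≤
      ENNReal.ofReal (C * (δ ^ d)⁻¹ * m) * ∫⁻ y, f y ^ (d + 1) := by
  classical
  obtain ⟨κ, hκ, hvol⟩ := Pool.Agent.W131.HM.VOL d
  set C₁ : ℝ := 5 ^ (d + 1) * (KC d * (6 ^ (d * d) * 3 ^ d)) with hC₁
  have hC₁0 : 0 < C₁ := by
    have := KC_pos d
    rw [hC₁]; positivity
  refine ⟨C₁ * (κ⁻¹) ^ (d + 1), by positivity, ?_⟩
  intro p _ δ hδ hδ1 M hM w₀ A m hA hA1 f hf
  set v : (Fin d → ℤ) → Fin d → ℝ := fun k => w₀ + M fun i => (k i : ℝ) with hv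
  -- choices
  let I : Type := {c : (Fin d → ℤ) → EuclideanSpace ℝ (Fin (d + 1)) × EuclideanSpace ℝ (Fin (d + 1)) //
    ∀ k, ‖(c k).2‖ = 1 ∧ ‖(c k).2 - dir (v k)‖ ≤ δ}
  have hI : Nonempty I := ⟨⟨fun k => (0, dir (v k)), fun k => ⟨norm_dir _, by simp [hδ.le]⟩⟩⟩
  let φ : (Fin d → ℤ) → I → ℝ≥0∞ := fun k c =>
    ((volume (tube δ (c.1 k).1 (c.1 k).2))⁻¹ * ∫⁻ y in tube δ (c.1 k).1 (c.1 k).2, f y) ^ (d + 1)
  have hmono : Monotone fun x : ℝ≥0∞ => x ^ (d + 1) := fun a b hab => pow_le_pow_left' hab _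
  have hcont : Continuous fun x : ℝ≥0∞ => x ^ (d + 1) := ENNReal.continuous_pow _
  have hbot : (fun x : ℝ≥0∞ => x ^ (d + 1)) ⊥ = ⊥ := by simp
  have hle : ∀ k, (⨆ e : {e : EuclideanSpace ℝ (Fin (d + 1)) //
        ‖e‖ = 1 ∧ ‖e - dir (v k)‖ ≤ δ}, kmax δ f e ^ (d + 1)) ≤ ⨆ c : I, φ k c := by
    intro k
    refine iSup_le fun e => ?_
    have e1 := hmono.map_iSup_of_continuousAt (f := fun x : ℝ≥0∞ => x ^ (d + 1))
      (g := fun a : EuclideanSpace ℝ (Fin (d + 1)) =>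
        (volume (tube δ a (e : EuclideanSpace ℝ (Fin (d + 1)))))⁻¹ *
          ∫⁻ y in tube δ a (e : EuclideanSpace ℝ (Fin (d + 1))), f y) hcont.continuousAt hbot
    have e2 : kmax δ f (e : EuclideanSpace ℝ (Fin (d + 1))) ^ (d + 1) =
        ⨆ a : EuclideanSpace ℝ (Fin (d + 1)),
          ((volume (tube δ a (e : EuclideanSpace ℝ (Fin (d + 1)))))⁻¹ *
            ∫⁻ y in tube δ a (e : EuclideanSpace ℝ (Fin (d + 1))), f y) ^ (d + 1) := e1
    rw [e2]
    refine iSup_le fun a => ?_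
    let c : I := ⟨fun k' => if k' = k then (a, (e : EuclideanSpace ℝ (Fin (d + 1))))
      else (0, dir (v k')), fun k' => by
        by_cases h : k' = k
        · simp only [if_pos h]; rw [h]; exact e.2
        · simp only [if_neg h]; exact ⟨norm_dir _, by simp [hδ.le]⟩⟩
    have hc : c.1 k = (a, (e : EuclideanSpace ℝ (Fin (d + 1)))) := if_pos rfl
    refine le_trans (le_of_eq ?_) (le_iSup (φ k) c)
    simp only [φ, hc]
  refine (Finset.sum_le_sum fun k _ => hle k).trans ?_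
  rw [ENNReal.finsetSum_iSup]
  · refine iSup_le fun c => ?_
    have key := tubes_p hd p hδ hδ1 M hM w₀ A m hA hA1 (fun k => (c.1 k).1) (fun k => (c.1 k).2)
      (fun k _ => (c.2 k).2) f hf
    have hvinv : ∀ k, (volume (tube δ (c.1 k).1 (c.1 k).2))⁻¹ ≤ ENNReal.ofReal ((κ * δ ^ d)⁻¹) := by
      intro k
      rw [ENNReal.ofReal_inv_of_pos (by positivity)]
      exact ENNReal.inv_le_inv.2 (hvol _ _ δ (c.2 k).1 hδ hδ1.le).1
    calc ∑ k ∈ A, φ k c
        ≤ ∑ k ∈ A, ENNReal.ofReal ((κ * δ ^ d)⁻¹) ^ (d + 1) *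
            (∫⁻ y in tube δ (c.1 k).1 (c.1 k).2, f y) ^ (d + 1) := by
          refine Finset.sum_le_sum fun k _ => ?_
          simp only [φ]
          rw [← mul_pow]
          gcongr
          exact hvinv k
      _ = ENNReal.ofReal ((κ * δ ^ d)⁻¹) ^ (d + 1) *
            ∑ k ∈ A, (∫⁻ y in tube δ (c.1 k).1 (c.1 k).2, f y) ^ (d + 1) := by
          rw [Finset.mul_sum]
      _ ≤ ENNReal.ofReal ((κ * δ ^ d)⁻¹) ^ (d + 1) * (5 ^ (d + 1) * (m * ENNReal.ofReal (KC d) *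
            (ENNReal.ofReal (2 * (3 * δ)) ^ (d * d) * 3 ^ d)) * ∫⁻ y, f y ^ (d + 1)) := by
          gcongr
      _ = _ := by
          have t5 : (5 : ℝ≥0∞) = ENNReal.ofReal 5 := by norm_num
          have t3 : (3 : ℝ≥0∞) = ENNReal.ofReal 3 := by norm_num
          have tm : (m : ℝ≥0∞) = ENNReal.ofReal m := (ENNReal.ofReal_natCast m).symm
          have hK := KC_nonneg d
          rw [← mul_assoc, t5, t3, tm, ← ENNReal.ofReal_pow (by positivity),
            ← ENNReal.ofReal_pow (by norm_num), ← ENNReal.ofReal_pow (by positivity),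
            ← ENNReal.ofReal_pow (by norm_num), ← ENNReal.ofReal_mul (by positivity),
            ← ENNReal.ofReal_mul (by positivity), ← ENNReal.ofReal_mul (by positivity),
            ← ENNReal.ofReal_mul (by positivity), ← ENNReal.ofReal_mul (by positivity)]
          congr 2
          rw [hC₁, show 2 * (3 * δ) = 6 * δ by ring, mul_pow 6 δ, inv_pow, mul_pow κ, mul_inv,
            inv_pow, ← pow_mul δ d (d + 1), show d * (d + 1) = d * d + d by ring, pow_add δ]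
          field_simp
  · intro i j
    refine ⟨⟨fun k => if φ k i ≤ φ k j then j.1 k else i.1 k, fun k => ?_⟩, fun k => ?_⟩
    · by_cases h : φ k i ≤ φ k j
      · simp only [if_pos h]; exact j.2 k
      · simp only [if_neg h]; exact i.2 k
    · by_cases h : φ k i ≤ φ k j
      · constructor
        · refine h.trans (le_of_eq ?_)
          simp only [φ, if_pos h]
        · refine le_of_eq ?_
          simp only [φ, if_pos h]
      · push Not at h
        constructor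
        · refine le_of_eq ?_
          simp only [φ, if_neg (not_le.2 h)]
        · refine h.le.trans (le_of_eq ?_)
          simp only [φ, if_neg (not_le.2 h)]

theorem kmax_neg {n : ℕ} (δ : ℝ) (f : EuclideanSpace ℝ (Fin n) → ℝ≥0∞)
    (e : EuclideanSpace ℝ (Fin n)) : kmax δ f (-e) = kmax δ f e := by
  unfold kmax
  simp only [tube_neg]

/-- the maximal function on the `δ`-neighbourhood of the lattice directions -/
theorem max_core (d : ℕ) (hd : 1 ≤ d) : ∃ C : ℝ, 0 < C ∧ ∀ (p : ℕ) [Fact p.Prime] (δ : ℝ), 0 < δ →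
    δ < 1 → ∀ (M : (Fin d → ℝ) →ₗ[ℝ] (Fin d → ℝ)), (∀ x, p * (3 * δ) * ‖x‖ ≤ ‖M x‖) →
    ∀ (w₀ : Fin d → ℝ) (A : Finset (Fin d → ℤ)) (m : ℕ),
    (∀ z : Fin d → ZMod p, (A.filter fun k => red p k = z).card ≤ m) →
    (∀ k ∈ A, ‖w₀ + M fun i => (k i : ℝ)‖ ≤ 1) →
    ∀ (f : EuclideanSpace ℝ (Fin (d + 1)) → ℝ≥0∞), AEMeasurable f volume →
    ∫⁻ e in {e : Metric.sphere (0 : EuclideanSpace ℝ (Fin (d + 1))) 1 | ∃ k ∈ A,
        ‖(e : EuclideanSpace ℝ (Fin (d + 1))) - dir (w₀ + M fun i => (k i : ℝ))‖ ≤ δ ∨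
        ‖(e : EuclideanSpace ℝ (Fin (d + 1))) + dir (w₀ + M fun i => (k i : ℝ))‖ ≤ δ},
      kmax δ f (e : EuclideanSpace ℝ (Fin (d + 1))) ^ (d + 1)
        ∂(volume : Measure (EuclideanSpace ℝ (Fin (d + 1)))).toSphere ≤
      ENNReal.ofReal (C * m) * ∫⁻ y, f y ^ (d + 1) := by
  classical
  obtain ⟨C₀, hC₀, hcap⟩ := Pool.Agent.W131.HM.CAP d
  obtain ⟨C, hC, hsup⟩ := sup_core d hd
  refine ⟨2 * C₀ * C, by positivity, ?_⟩
  intro p _ δ hδ hδ1 M hM w₀ A m hA hA1 f hfae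
  -- a measurable version
  set g := hfae.mk f with hg
  have hgm : Measurable g := hfae.measurable_mk
  have hfg : f =ᵐ[volume] g := hfae.ae_eq_mk
  have hk : ∀ e, kmax δ f e = kmax δ g e := by
    intro e
    unfold kmax
    refine iSup_congr fun a => ?_
    congr 1
    exact lintegral_congr_ae (ae_restrict_of_ae hfg)
  have hint : ∫⁻ y, f y ^ (d + 1) = ∫⁻ y, g y ^ (d + 1) := by
    refine lintegral_congr_ae ?_
    filter_upwards [hfg] with y hy
    rw [hy]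
  simp only [hk, hint]
  set v : (Fin d → ℤ) → Fin d → ℝ := fun k => w₀ + M fun i => (k i : ℝ) with hv
  set S : (Fin d → ℤ) → ℝ≥0∞ := fun k => ⨆ e : {e : EuclideanSpace ℝ (Fin (d + 1)) //
        ‖e‖ = 1 ∧ ‖e - dir (v k)‖ ≤ δ}, kmax δ g e ^ (d + 1) with hS
  let c₁ : (Fin d → ℤ) → Metric.sphere (0 : EuclideanSpace ℝ (Fin (d + 1))) 1 := fun k =>
    ⟨dir (v k), by rw [mem_sphere_zero_iff_norm]; exact norm_dir _⟩
  let c₂ : (Fin d → ℤ) → Metric.sphere (0 : EuclideanSpace ℝ (Fin (d + 1))) 1 := fun k =>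
    ⟨-dir (v k), by rw [mem_sphere_zero_iff_norm, norm_neg]; exact norm_dir _⟩
  have hsub : {e : Metric.sphere (0 : EuclideanSpace ℝ (Fin (d + 1))) 1 | ∃ k ∈ A,
        ‖(e : EuclideanSpace ℝ (Fin (d + 1))) - dir (v k)‖ ≤ δ ∨
        ‖(e : EuclideanSpace ℝ (Fin (d + 1))) + dir (v k)‖ ≤ δ} ⊆
      ⋃ k ∈ A, (Metric.closedBall (c₁ k) δ ∪ Metric.closedBall (c₂ k) δ) := by
    rintro e ⟨k, hkA, h⟩
    rw [Set.mem_iUnion₂]
    refine ⟨k, hkA, ?_⟩
    rcases h with h | h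
    · left
      rw [Metric.mem_closedBall, Subtype.dist_eq, dist_eq_norm]
      exact h
    · right
      rw [Metric.mem_closedBall, Subtype.dist_eq, dist_eq_norm]
      show ‖(e : EuclideanSpace ℝ (Fin (d + 1))) - -dir (v k)‖ ≤ δ
      rw [sub_neg_eq_add]
      exact h
  have hF₁ : ∀ k, ∀ e ∈ Metric.closedBall (c₁ k) δ,
      kmax δ g (e : EuclideanSpace ℝ (Fin (d + 1))) ^ (d + 1) ≤ S k := by
    intro k e he
    rw [Metric.mem_closedBall, Subtype.dist_eq, dist_eq_norm] at he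
    have he1 : ‖(e : EuclideanSpace ℝ (Fin (d + 1)))‖ = 1 := by simp
    exact le_iSup (fun e : {e : EuclideanSpace ℝ (Fin (d + 1)) //
        ‖e‖ = 1 ∧ ‖e - dir (v k)‖ ≤ δ} => kmax δ g e ^ (d + 1)) ⟨e, he1, he⟩
  have hF₂ : ∀ k, ∀ e ∈ Metric.closedBall (c₂ k) δ,
      kmax δ g (e : EuclideanSpace ℝ (Fin (d + 1))) ^ (d + 1) ≤ S k := by
    intro k e he
    rw [Metric.mem_closedBall, Subtype.dist_eq, dist_eq_norm] at he
    have he1 : ‖-(e : EuclideanSpace ℝ (Fin (d + 1)))‖ = 1 := by rw [norm_neg]; simp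
    have he2 : ‖-(e : EuclideanSpace ℝ (Fin (d + 1))) - dir (v k)‖ ≤ δ := by
      have : -(e : EuclideanSpace ℝ (Fin (d + 1))) - dir (v k) =
          -((e : EuclideanSpace ℝ (Fin (d + 1))) - -dir (v k)) := by abel
      rw [this, norm_neg]
      exact he
    rw [← kmax_neg]
    exact le_iSup (fun e : {e : EuclideanSpace ℝ (Fin (d + 1)) //
        ‖e‖ = 1 ∧ ‖e - dir (v k)‖ ≤ δ} => kmax δ g e ^ (d + 1)) ⟨_, he1, he2⟩
  have hball : ∀ (c : Metric.sphere (0 : EuclideanSpace ℝ (Fin (d + 1))) 1) (k : Fin d → ℤ),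
      (∀ e ∈ Metric.closedBall c δ, kmax δ g (e : EuclideanSpace ℝ (Fin (d + 1))) ^ (d + 1) ≤ S k) →
      ∫⁻ e in Metric.closedBall c δ, kmax δ g (e : EuclideanSpace ℝ (Fin (d + 1))) ^ (d + 1)
        ∂(volume : Measure (EuclideanSpace ℝ (Fin (d + 1)))).toSphere ≤
      ENNReal.ofReal (C₀ * δ ^ d) * S k := by
    intro c k h
    calc _ ≤ ∫⁻ _e in Metric.closedBall c δ, S k
          ∂(volume : Measure (EuclideanSpace ℝ (Fin (d + 1)))).toSphere :=
          setLIntegral_mono' Metric.isClosed_closedBall.measurableSet h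
      _ = S k * (volume : Measure (EuclideanSpace ℝ (Fin (d + 1)))).toSphere
            (Metric.closedBall c δ) := by
          rw [setLIntegral_const]
      _ ≤ S k * ENNReal.ofReal (C₀ * δ ^ d) := by
          gcongr
          exact hcap c δ hδ hδ1.le
      _ = _ := mul_comm _ _
  calc _ ≤ ∫⁻ e in ⋃ k ∈ A, (Metric.closedBall (c₁ k) δ ∪ Metric.closedBall (c₂ k) δ),
        kmax δ g (e : EuclideanSpace ℝ (Fin (d + 1))) ^ (d + 1)
          ∂(volume : Measure (EuclideanSpace ℝ (Fin (d + 1)))).toSphere := lintegral_mono_set hsub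
    _ ≤ ∑ k ∈ A, ∫⁻ e in (Metric.closedBall (c₁ k) δ ∪ Metric.closedBall (c₂ k) δ),
        kmax δ g (e : EuclideanSpace ℝ (Fin (d + 1))) ^ (d + 1)
          ∂(volume : Measure (EuclideanSpace ℝ (Fin (d + 1)))).toSphere := lint_biUnion_le _ _ _ _
    _ ≤ ∑ k ∈ A, (ENNReal.ofReal (C₀ * δ ^ d) * S k + ENNReal.ofReal (C₀ * δ ^ d) * S k) := by
        refine Finset.sum_le_sum fun k _ => ?_
        refine (lintegral_union_le _ _ _).trans ?_
        exact add_le_add (hball _ k (hF₁ k)) (hball _ k (hF₂ k))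
    _ = ENNReal.ofReal (2 * C₀ * δ ^ d) * ∑ k ∈ A, S k := by
        rw [Finset.mul_sum]
        refine Finset.sum_congr rfl fun k _ => ?_
        rw [← two_mul, ← mul_assoc, mul_assoc (2 : ℝ), ENNReal.ofReal_mul (by norm_num : (0 : ℝ) ≤ 2)]
        norm_num
    _ ≤ ENNReal.ofReal (2 * C₀ * δ ^ d) * (ENNReal.ofReal (C * (δ ^ d)⁻¹ * m) *
          ∫⁻ y, g y ^ (d + 1)) := by
        gcongr
        exact hsup p δ hδ hδ1 M hM w₀ A m hA hA1 g hgm
    _ = _ := by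
        rw [← mul_assoc, ← ENNReal.ofReal_mul (by positivity)]
        congr 2
        field_simp

end Pool.Agent.H668.Lat
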