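import Pool.Agent.H668.Lat.Max

/-!
# The maximal function on lattice nets of mesh at least `√δ`
-/

set_option autoImplicit false

open Finset MeasureTheory
open scoped ENNReal

namespace Pool.Agent.H668.Lat
open Pool.Agent.W46.KK (tube)
open Pool.Agent.W46.HM (kmax)

/-- a prime of size about `1 / √δ` -/
theorem exists_prime_classes {d : ℕ} {δ : ℝ} (hδ : 0 < δ) (hsmall : δ ≤ 1 / 36)
    (M : (Fin d → ℝ) →ₗ[ℝ] (Fin d → ℝ)) (hM : ∀ x, √δ * ‖x‖ ≤ ‖M x‖) (w₀ : Fin d → ℝ)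
    (A : Finset (Fin d → ℤ)) (hA1 : ∀ k ∈ A, ‖w₀ + M fun i => (k i : ℝ)‖ ≤ 1) :
    ∃ p : ℕ, p.Prime ∧ (∀ x, p * (3 * δ) * ‖x‖ ≤ ‖M x‖) ∧
      ∀ z : Fin d → ZMod p, (A.filter fun k => red p k = z).card ≤ 49 ^ d := by
  classical
  have hs : 0 < √δ := Real.sqrt_pos.2 hδ
  have hsq : √δ * √δ = δ := Real.mul_self_sqrt hδ.le
  have hs6 : √δ ≤ 1 / 6 := by
    rw [Real.sqrt_le_left (by norm_num)]
    norm_num
    linarith
  set n₀ : ℕ := ⌊1 / (6 * √δ)⌋₊ with hn₀
  have hx1 : 1 ≤ 1 / (6 * √δ) := by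
    rw [le_div_iff₀ (by positivity)]; linarith
  have hn1 : 1 ≤ n₀ := Nat.one_le_floor_iff _ |>.2 hx1
  have hn2 : (n₀ : ℝ) ≤ 1 / (6 * √δ) := Nat.floor_le (by positivity)
  have hn3 : 1 / (6 * √δ) < n₀ + 1 := Nat.lt_floor_add_one _
  obtain ⟨p, hp, hp1, hp2⟩ := Nat.exists_prime_lt_and_le_two_mul n₀ (by omega)
  have hp1' : ((n₀ : ℝ) + 1) ≤ p := by exact_mod_cast hp1
  have hp2' : (p : ℝ) ≤ 2 * n₀ := by exact_mod_cast hp2
  have hp0 : (0 : ℝ) < p := by exact_mod_cast hp.pos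
  have hpδ : (p : ℝ) * (3 * √δ) ≤ 1 := by
    have : (p : ℝ) ≤ 2 * (1 / (6 * √δ)) := hp2'.trans (by linarith)
    calc (p : ℝ) * (3 * √δ) ≤ 2 * (1 / (6 * √δ)) * (3 * √δ) := by gcongr
      _ = 1 := by field_simp; norm_num
  refine ⟨p, hp, ?_, ?_⟩
  · intro x
    refine le_trans ?_ (hM x)
    apply mul_le_mul_of_nonneg_right _ (norm_nonneg x)
    have e0 : (p : ℝ) * (3 * δ) = p * (3 * √δ) * √δ := by
      calc (p : ℝ) * (3 * δ) = p * (3 * (√δ * √δ)) := by rw [hsq]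
        _ = p * (3 * √δ) * √δ := by ring
    calc (p : ℝ) * (3 * δ) = p * (3 * √δ) * √δ := e0
      _ ≤ 1 * √δ := by gcongr
      _ = √δ := one_mul _
  · intro z
    rcases (A.filter fun k => red p k = z).eq_empty_or_nonempty with hem | ⟨k₀, hk₀⟩
    · rw [hem]; simp
    · have h0 := Finset.mem_filter.1 hk₀
      refine card_near _ k₀ 24 p (by exact_mod_cast hp.pos) ?_
      intro k hk i
      have h1 := Finset.mem_filter.1 hk
      constructor
      · have h2 : red p k i = red p k₀ i := by rw [h1.2, h0.2]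
        rw [red, red, eq_comm, ZMod.intCast_eq_intCast_iff_dvd_sub] at h2
        exact h2
      · have h3 := diff_le hδ M hM w₀ k k₀ (hA1 k h1.1) (hA1 k₀ h0.1) i
        have h4 : (2 : ℝ) / √δ ≤ p * 24 := by
          have h5 : (1 : ℝ) / (6 * √δ) ≤ p := by linarith
          have h6 : (2 : ℝ) / √δ = 12 * (1 / (6 * √δ)) := by field_simp; norm_num
          rw [h6]; linarith
        have h7 := h3.trans h4
        exact_mod_cast h7

/-- only finitely many points of the lattice lie in the unit cube -/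
theorem finite_points {d : ℕ} {δ : ℝ} (hδ : 0 < δ) (M : (Fin d → ℝ) →ₗ[ℝ] (Fin d → ℝ))
    (hM : ∀ x, √δ * ‖x‖ ≤ ‖M x‖) (w₀ : Fin d → ℝ) :
    {k : Fin d → ℤ | ‖w₀ + M fun i => (k i : ℝ)‖ ≤ 1}.Finite := by
  classical
  rcases Set.eq_empty_or_nonempty {k : Fin d → ℤ | ‖w₀ + M fun i => (k i : ℝ)‖ ≤ 1} with h | ⟨k₀, hk₀⟩
  · rw [h]; exact Set.finite_empty
  · refine Set.Finite.subset (s := Set.pi Set.univ fun i : Fin d =>
      Set.Icc (k₀ i - ⌈2 / √δ⌉) (k₀ i + ⌈2 / √δ⌉)) (Set.Finite.pi fun _ => Set.finite_Icc _ _) ?_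
    intro k hk
    rw [Set.mem_pi]
    intro i _
    have h1 := diff_le hδ M hM w₀ k k₀ hk hk₀ i
    have h2 := Int.le_ceil (2 / √δ)
    have h3 : |k i - k₀ i| ≤ ⌈2 / √δ⌉ := by
      have h4 := h1.trans h2
      exact_mod_cast h4
    rw [abs_le] at h3
    rw [Set.mem_Icc]
    constructor <;> linarith [h3.1, h3.2]

/-- the maximal function on the `δ`-neighbourhood of a lattice net of mesh at least `√δ` -/
theorem max_net (d : ℕ) (hd : 1 ≤ d) : ∃ C : ℝ, 0 < C ∧ ∀ (δ : ℝ), 0 < δ →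
    δ < 1 → ∀ (M : (Fin d → ℝ) →ₗ[ℝ] (Fin d → ℝ)), (∀ x, √δ * ‖x‖ ≤ ‖M x‖) →
    ∀ (w₀ : Fin d → ℝ)
    (f : EuclideanSpace ℝ (Fin (d + 1)) → ℝ≥0∞), AEMeasurable f volume →
    ∫⁻ e in {e : Metric.sphere (0 : EuclideanSpace ℝ (Fin (d + 1))) 1 | ∃ k : Fin d → ℤ,
        ‖w₀ + M fun i => (k i : ℝ)‖ ≤ 1 ∧
        (‖(e : EuclideanSpace ℝ (Fin (d + 1))) - dir (w₀ + M fun i => (k i : ℝ))‖ ≤ δ ∨
        ‖(e : EuclideanSpace ℝ (Fin (d + 1))) + dir (w₀ + M fun i => (k i : ℝ))‖ ≤ δ)},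
      kmax δ f (e : EuclideanSpace ℝ (Fin (d + 1))) ^ (d + 1)
        ∂(volume : Measure (EuclideanSpace ℝ (Fin (d + 1)))).toSphere ≤
      ENNReal.ofReal C * ∫⁻ y, f y ^ (d + 1) := by
  classical
  obtain ⟨C, hC, hmax⟩ := max_core d hd
  obtain ⟨κ, hκ, hvol⟩ := Pool.Agent.W131.HM.VOL d
  set σ : ℝ := ((volume : Measure (EuclideanSpace ℝ (Fin (d + 1)))).toSphere Set.univ).toReal with hσ
  have hσ0 : 0 ≤ σ := ENNReal.toReal_nonneg
  have hσtop : (volume : Measure (EuclideanSpace ℝ (Fin (d + 1)))).toSphere Set.univ ≠ ⊤ :=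
    measure_ne_top _ _
  set C₂ : ℝ := σ * (κ⁻¹ * 36 ^ d) with hC₂
  have hC₂0 : 0 ≤ C₂ := by rw [hC₂]; positivity
  refine ⟨C * 49 ^ d + C₂, by positivity, ?_⟩
  intro δ hδ hδ1 M hM w₀ f hf
  rcases le_or_gt δ (1 / 36) with hsmall | hbig
  · set A : Finset (Fin d → ℤ) := (finite_points hδ M hM w₀).toFinset with hA
    have hA1 : ∀ k ∈ A, ‖w₀ + M fun i => (k i : ℝ)‖ ≤ 1 := by
      intro k hk
      rw [hA, Set.Finite.mem_toFinset] at hk
      exact hk
    obtain ⟨p, hp, hpM, hcl⟩ := exists_prime_classes hδ hsmall M hM w₀ A hA1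
    have : Fact p.Prime := ⟨hp⟩
    have h1 := hmax p δ hδ hδ1 M hpM w₀ A (49 ^ d) hcl hA1 f hf
    refine le_trans (lintegral_mono_set ?_) (h1.trans ?_)
    · rintro e ⟨k, hk, he⟩
      exact ⟨k, by rw [hA, Set.Finite.mem_toFinset]; exact hk, he⟩
    · refine mul_le_mul_left (ENNReal.ofReal_le_ofReal ?_) _
      push_cast
      linarith
  · -- large `δ`
    have hk : ∀ e : Metric.sphere (0 : EuclideanSpace ℝ (Fin (d + 1))) 1,
        kmax δ f (e : EuclideanSpace ℝ (Fin (d + 1))) ^ (d + 1) ≤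
          ENNReal.ofReal (κ⁻¹ * 36 ^ d) * ∫⁻ y, f y ^ (d + 1) := by
      intro e
      have he1 : ‖(e : EuclideanSpace ℝ (Fin (d + 1)))‖ = 1 := by simp
      have hmono : Monotone fun x : ℝ≥0∞ => x ^ (d + 1) := fun a b hab => pow_le_pow_left' hab _
      have hcont : Continuous fun x : ℝ≥0∞ => x ^ (d + 1) := ENNReal.continuous_pow _
      have hbot : (fun x : ℝ≥0∞ => x ^ (d + 1)) ⊥ = ⊥ := by simp
      have e1 := hmono.map_iSup_of_continuousAt (f := fun x : ℝ≥0∞ => x ^ (d + 1))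
        (g := fun a : EuclideanSpace ℝ (Fin (d + 1)) =>
          (volume (tube δ a (e : EuclideanSpace ℝ (Fin (d + 1)))))⁻¹ *
            ∫⁻ y in tube δ a (e : EuclideanSpace ℝ (Fin (d + 1))), f y) hcont.continuousAt hbot
      have e2 : kmax δ f (e : EuclideanSpace ℝ (Fin (d + 1))) ^ (d + 1) =
          ⨆ a : EuclideanSpace ℝ (Fin (d + 1)),
            ((volume (tube δ a (e : EuclideanSpace ℝ (Fin (d + 1)))))⁻¹ *
              ∫⁻ y in tube δ a (e : EuclideanSpace ℝ (Fin (d + 1))), f y) ^ (d + 1) := e1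
      rw [e2]
      refine iSup_le fun a => ?_
      set V := volume (tube δ a (e : EuclideanSpace ℝ (Fin (d + 1)))) with hV
      obtain ⟨hv1, hv2⟩ := hvol a e δ he1 hδ hδ1.le
      have hV0 : V ≠ 0 := by
        intro h0
        rw [← hV, h0] at hv1
        have h3 : ENNReal.ofReal (κ * δ ^ d) = 0 := le_antisymm hv1 zero_le
        rw [ENNReal.ofReal_eq_zero] at h3
        have : 0 < κ * δ ^ d := by positivity
        linarith
      have h1 := pow_lint_le (volume.restrict (tube δ a (e : EuclideanSpace ℝ (Fin (d + 1))))) d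
        hf.restrict
      rw [Measure.restrict_apply_univ, ← hV] at h1
      calc (V⁻¹ * ∫⁻ y in tube δ a (e : EuclideanSpace ℝ (Fin (d + 1))), f y) ^ (d + 1)
          = (V⁻¹) ^ (d + 1) * (∫⁻ y in tube δ a (e : EuclideanSpace ℝ (Fin (d + 1))), f y) ^ (d + 1) :=
            mul_pow _ _ _
        _ ≤ (V⁻¹) ^ (d + 1) * (V ^ d * ∫⁻ y, f y ^ (d + 1)) := by
            gcongr
            refine h1.trans ?_
            gcongr
            exact Measure.restrict_le_self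
        _ = V⁻¹ * ∫⁻ y, f y ^ (d + 1) := by
            rw [pow_succ, ← mul_assoc, mul_assoc ((V⁻¹) ^ d), mul_comm (V⁻¹) (V ^ d), ← mul_assoc,
              ← mul_pow, ENNReal.inv_mul_cancel hV0 hv2, one_pow, one_mul]
        _ ≤ ENNReal.ofReal (κ⁻¹ * 36 ^ d) * ∫⁻ y, f y ^ (d + 1) := by
            gcongr
            have h2 : V⁻¹ ≤ ENNReal.ofReal ((κ * δ ^ d)⁻¹) := by
              rw [ENNReal.ofReal_inv_of_pos (by positivity)]
              exact ENNReal.inv_le_inv.2 hv1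
            refine h2.trans (ENNReal.ofReal_le_ofReal ?_)
            rw [mul_inv]
            gcongr
            rw [← inv_pow]
            apply pow_le_pow_left₀ (by positivity)
            rw [inv_le_comm₀ hδ (by norm_num)]
            linarith
    calc _ ≤ ∫⁻ _e : Metric.sphere (0 : EuclideanSpace ℝ (Fin (d + 1))) 1,
          (ENNReal.ofReal (κ⁻¹ * 36 ^ d) * ∫⁻ y, f y ^ (d + 1))
            ∂(volume : Measure (EuclideanSpace ℝ (Fin (d + 1)))).toSphere :=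
          (setLIntegral_le_lintegral _ _).trans (lintegral_mono hk)
      _ = ENNReal.ofReal (κ⁻¹ * 36 ^ d) * (∫⁻ y, f y ^ (d + 1)) *
            (volume : Measure (EuclideanSpace ℝ (Fin (d + 1)))).toSphere Set.univ :=
          lintegral_const _
      _ = ENNReal.ofReal C₂ * ∫⁻ y, f y ^ (d + 1) := by
          have e3 : (volume : Measure (EuclideanSpace ℝ (Fin (d + 1)))).toSphere Set.univ =
              ENNReal.ofReal σ := (ENNReal.ofReal_toReal hσtop).symm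
          rw [e3, hC₂, ENNReal.ofReal_mul hσ0]
          ring
      _ ≤ _ := by
          refine mul_le_mul_left (ENNReal.ofReal_le_ofReal ?_) _
          have : 0 < C * 49 ^ d := by positivity
          linarith

end Pool.Agent.H668.Lat
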