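import Pool.Agent.H668.Lat.Tube
import Pool.Agent.W131.HM.CapVol

/-!
# Lattice nets of mesh at least `√δ`
-/

set_option autoImplicit false

open Finset MeasureTheory
open scoped ENNReal

namespace Pool.Agent.H668.Lat
open Pool.Agent.H822 (KC KC_nonneg)
open Pool.Agent.W46.KK (tube)

/-- integer vectors near a given one -/
theorem card_near {d : ℕ} (S : Finset (Fin d → ℤ)) (k₀ : Fin d → ℤ) (R : ℕ) (q : ℤ) (hq : 0 < q)
    (h : ∀ k ∈ S, ∀ i, q ∣ k i - k₀ i ∧ |k i - k₀ i| ≤ q * R) : S.card ≤ (2 * R + 1) ^ d := by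
  classical
  set T : Finset (Fin d → ℤ) := Fintype.piFinset fun _ => Finset.Icc (-(R : ℤ)) R with hT
  have hcard : T.card = (2 * R + 1) ^ d := by
    rw [hT, Fintype.card_piFinset, Finset.prod_const, Finset.card_univ, Fintype.card_fin,
      Int.card_Icc]
    congr 1
    omega
  rw [← hcard]
  refine Finset.card_le_card_of_injOn (fun k i => (k i - k₀ i) / q) ?_ ?_
  · intro k hk
    have hk' := h k hk
    rw [Finset.mem_coe, hT, Fintype.mem_piFinset]
    intro i
    obtain ⟨⟨c, hc⟩, h2⟩ := hk' i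
    rw [Finset.mem_Icc]
    rw [hc, abs_mul, abs_of_pos hq] at h2
    have h3 : |c| ≤ R := le_of_mul_le_mul_left h2 hq
    dsimp only
    rw [hc, Int.mul_ediv_cancel_left _ hq.ne']
    exact abs_le.1 h3
  · intro k hk k' hk' hkk
    funext i
    obtain ⟨⟨c, hc⟩, -⟩ := h k hk i
    obtain ⟨⟨c', hc'⟩, -⟩ := h k' hk' i
    have h4 := congrFun hkk i
    simp only at h4
    rw [hc, hc', Int.mul_ediv_cancel_left _ hq.ne', Int.mul_ediv_cancel_left _ hq.ne'] at h4
    rw [h4] at hc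
    linarith

theorem diff_le {d : ℕ} {δ : ℝ} (hδ : 0 < δ) (M : (Fin d → ℝ) →ₗ[ℝ] (Fin d → ℝ))
    (hM : ∀ x, √δ * ‖x‖ ≤ ‖M x‖) (w₀ : Fin d → ℝ) (k k' : Fin d → ℤ)
    (h : ‖w₀ + M fun i => (k i : ℝ)‖ ≤ 1) (h' : ‖w₀ + M fun i => (k' i : ℝ)‖ ≤ 1) (i : Fin d) :
    |(k i : ℝ) - k' i| ≤ 2 / √δ := by
  have hs : 0 < √δ := Real.sqrt_pos.2 hδ
  set x : Fin d → ℝ := (fun i => (k i : ℝ)) - fun i => (k' i : ℝ) with hx
  have h1 : M x = (w₀ + M fun i => (k i : ℝ)) - (w₀ + M fun i => (k' i : ℝ)) := by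
    rw [hx, map_sub]; abel
  have h2 : ‖M x‖ ≤ 2 := by
    rw [h1]
    refine (norm_sub_le _ _).trans ?_
    linarith
  have h3 : √δ * ‖x‖ ≤ 2 := (hM x).trans h2
  have h4 : |x i| ≤ ‖x‖ := norm_le_pi_norm x i
  rw [le_div_iff₀ hs]
  have h5 : x i = (k i : ℝ) - k' i := rfl
  rw [← h5]
  nlinarith

theorem net_core (d : ℕ) (hd : 1 ≤ d) : ∃ C : ℝ, 0 < C ∧ ∀ δ : ℝ, 0 < δ → δ < 1 →
    ∀ (M : (Fin d → ℝ) →ₗ[ℝ] (Fin d → ℝ)), (∀ x, √δ * ‖x‖ ≤ ‖M x‖) → ∀ (w₀ : Fin d → ℝ)
    (A : Finset (Fin d → ℤ)), (∀ k ∈ A, ‖w₀ + M fun i => (k i : ℝ)‖ ≤ 1) →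
    ∀ (a e : (Fin d → ℤ) → EuclideanSpace ℝ (Fin (d + 1))), (∀ k ∈ A, ‖e k‖ = 1) →
    (∀ k ∈ A, ‖e k - dir (w₀ + M fun i => (k i : ℝ))‖ ≤ δ) →
    ∀ (f : EuclideanSpace ℝ (Fin (d + 1)) → ℝ≥0∞), Measurable f →
    ∑ k ∈ A, (∫⁻ y in tube δ (a k) (e k), f y) ^ (d + 1) ≤
      ENNReal.ofReal (C * δ ^ (d * d)) * ∫⁻ y, f y ^ (d + 1) := by
  classical
  set V : ℝ := (volume (Metric.closedBall (0 : EuclideanSpace ℝ (Fin (d + 1))) 2)).toReal with hV
  have hV0 : 0 ≤ V := ENNReal.toReal_nonneg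
  set C₁ : ℝ := 5 ^ (d + 1) * (49 ^ d * KC d * (6 ^ (d * d) * 3 ^ d)) with hC₁
  have hC₁0 : 0 < C₁ := by
    have := KC_pos d
    rw [hC₁]; positivity
  set C₂ : ℝ := 25 ^ d * V ^ d * 36 ^ (d * d) with hC₂
  have hC₂0 : 0 ≤ C₂ := by rw [hC₂]; positivity
  refine ⟨C₁ + C₂, by linarith, ?_⟩
  intro δ hδ hδ1 M hM w₀ A hA1 a e he1 he f hf
  have hs : 0 < √δ := Real.sqrt_pos.2 hδ
  have hsq : √δ * √δ = δ := Real.mul_self_sqrt hδ.le
  rcases le_or_gt δ (1 / 36) with hsmall | hbig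
  · -- small `δ`
    have hs6 : √δ ≤ 1 / 6 := by
      rw [Real.sqrt_le_left (by norm_num)]
      norm_num
      linarith
    set n₀ : ℕ := ⌊1 / (6 * √δ)⌋₊ with hn₀
    have hx1 : 1 ≤ 1 / (6 * √δ) := by
      rw [le_div_iff₀ (by positivity)]; linarith
    have hn1 : 1 ≤ n₀ := Nat.one_le_floor_iff _ |>.2 hx1
    have hn2 : (n₀ : ℝ) ≤ 1 / (6 * √δ) := Nat.floor_le (by positivity)
    have hn3 : 1 / (6 * √δ) < n₀ + 1 := Nat.lt_floor_add_one _
    obtain ⟨p, hp, hp1, hp2⟩ := Nat.exists_prime_lt_and_le_two_mul n₀ (by omega)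
    have : Fact p.Prime := ⟨hp⟩
    have hp1' : ((n₀ : ℝ) + 1) ≤ p := by exact_mod_cast hp1
    have hp2' : (p : ℝ) ≤ 2 * n₀ := by exact_mod_cast hp2
    have hp0 : (0 : ℝ) < p := by exact_mod_cast hp.pos
    have hpδ : (p : ℝ) * (3 * √δ) ≤ 1 := by
      have : (p : ℝ) ≤ 2 * (1 / (6 * √δ)) := hp2'.trans (by linarith)
      calc (p : ℝ) * (3 * √δ) ≤ 2 * (1 / (6 * √δ)) * (3 * √δ) := by gcongr
        _ = 1 := by field_simp; norm_num
    have hM' : ∀ x, p * (3 * δ) * ‖x‖ ≤ ‖M x‖ := by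
      intro x
      refine le_trans ?_ (hM x)
      apply mul_le_mul_of_nonneg_right _ (norm_nonneg x)
      have e0 : (p : ℝ) * (3 * δ) = p * (3 * √δ) * √δ := by
        calc (p : ℝ) * (3 * δ) = p * (3 * (√δ * √δ)) := by rw [hsq]
          _ = p * (3 * √δ) * √δ := by ring
      calc (p : ℝ) * (3 * δ) = p * (3 * √δ) * √δ := e0
        _ ≤ 1 * √δ := by gcongr
        _ = √δ := one_mul _
    have hclass : ∀ z : Fin d → ZMod p, (A.filter fun k => red p k = z).card ≤ 49 ^ d := by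
      intro z
      rcases (A.filter fun k => red p k = z).eq_empty_or_nonempty with hem | ⟨k₀, hk₀⟩
      · rw [hem]; simp
      · have h0 := Finset.mem_filter.1 hk₀
        refine card_near _ k₀ 24 p (by exact_mod_cast hp.pos) ?_
        intro k hk i
        have h1 := Finset.mem_filter.1 hk
        constructor
        · have h2 : red p k i = red p k₀ i := by rw [h1.2, h0.2]
          rw [red, red, eq_comm, ZMod.intCast_eq_intCast_iff_dvd_sub] at h2
          exact h2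
        · have h3 := diff_le hδ M hM w₀ k k₀ (hA1 k h1.1) (hA1 k₀ h0.1) i
          have h4 : (2 : ℝ) / √δ ≤ p * 24 := by
            have h5 : (1 : ℝ) / (6 * √δ) ≤ p := by linarith
            have h6 : (2 : ℝ) / √δ = 12 * (1 / (6 * √δ)) := by field_simp; norm_num
            rw [h6]; linarith
          have h7 := h3.trans h4
          exact_mod_cast h7
    have key := tubes_p hd p hδ hδ1 M hM' w₀ A (49 ^ d) hclass hA1 a e he f hf
    refine key.trans ?_
    gcongr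
    have e1 : (5 : ℝ≥0∞) ^ (d + 1) * (((49 ^ d : ℕ) : ℝ≥0∞) * ENNReal.ofReal (KC d) *
        (ENNReal.ofReal (2 * (3 * δ)) ^ (d * d) * 3 ^ d)) = ENNReal.ofReal (C₁ * δ ^ (d * d)) := by
      have t5 : (5 : ℝ≥0∞) = ENNReal.ofReal 5 := by norm_num
      have t3 : (3 : ℝ≥0∞) = ENNReal.ofReal 3 := by norm_num
      have t49 : (((49 ^ d : ℕ) : ℝ≥0∞)) = ENNReal.ofReal (49 ^ d) := by
        rw [← ENNReal.ofReal_natCast]
        push_cast
        rfl
      rw [t5, t3, t49, ← ENNReal.ofReal_pow (by norm_num), ← ENNReal.ofReal_pow (by positivity),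
        ← ENNReal.ofReal_pow (by norm_num), ← ENNReal.ofReal_mul (by positivity),
        ← ENNReal.ofReal_mul (by positivity), ← ENNReal.ofReal_mul (by
          have := KC_nonneg d
          positivity), ← ENNReal.ofReal_mul (by positivity)]
      congr 1
      rw [hC₁, show 2 * (3 * δ) = 6 * δ by ring, mul_pow]
      ring
    rw [e1]
    apply ENNReal.ofReal_le_ofReal
    apply mul_le_mul_of_nonneg_right _ (by positivity)
    linarith
  · -- large `δ`
    have hcard : A.card ≤ 25 ^ d := by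
      rcases A.eq_empty_or_nonempty with rfl | ⟨k₀, hk₀⟩
      · simp
      · refine card_near _ k₀ 12 1 one_pos ?_
        intro k hk i
        refine ⟨one_dvd _, ?_⟩
        have h3 := diff_le hδ M hM w₀ k k₀ (hA1 k hk) (hA1 k₀ hk₀) i
        have h4 : (2 : ℝ) / √δ ≤ 12 := by
          rw [div_le_iff₀ hs]
          have h5 : (1 : ℝ) / 6 ≤ √δ := by
            apply Real.le_sqrt_of_sq_le
            norm_num
            linarith
          linarith
        have h7 := h3.trans h4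
        have h8 : |k i - k₀ i| ≤ 12 := by exact_mod_cast h7
        push_cast
        linarith
    have hterm : ∀ k ∈ A, (∫⁻ y in tube δ (a k) (e k), f y) ^ (d + 1) ≤
        ENNReal.ofReal (V ^ d) * ∫⁻ y, f y ^ (d + 1) := by
      intro k hk
      have h1 := pow_lint_le (volume.restrict (tube δ (a k) (e k))) d hf.aemeasurable
      refine h1.trans ?_
      rw [Measure.restrict_apply_univ]
      have hsub : tube δ (a k) (e k) ⊆ Metric.closedBall (a k) 2 := by
        rintro y ⟨h1, h2⟩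
        rw [Metric.mem_closedBall, dist_eq_norm]
        have h3 : y - a k = ((y - a k) - (inner ℝ (y - a k) (e k) : ℝ) • e k) +
            (inner ℝ (y - a k) (e k) : ℝ) • e k := by abel
        rw [h3]
        refine (norm_add_le _ _).trans ?_
        have h4 : ‖(inner ℝ (y - a k) (e k) : ℝ) • e k‖ ≤ 1 / 2 := by
          rw [norm_smul, he1 k hk, mul_one, Real.norm_eq_abs]
          exact h1
        linarith
      have hvol : volume (tube δ (a k) (e k)) ≤ ENNReal.ofReal V := by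
        refine (measure_mono hsub).trans (le_of_eq ?_)
        rw [hV, ENNReal.ofReal_toReal measure_closedBall_lt_top.ne]
        rw [EuclideanSpace.volume_closedBall, EuclideanSpace.volume_closedBall]
      rw [ENNReal.ofReal_pow hV0]
      gcongr
      exact Measure.restrict_le_self
    calc ∑ k ∈ A, (∫⁻ y in tube δ (a k) (e k), f y) ^ (d + 1)
        ≤ ∑ _k ∈ A, ENNReal.ofReal (V ^ d) * ∫⁻ y, f y ^ (d + 1) := Finset.sum_le_sum hterm
      _ = (A.card : ℝ≥0∞) * (ENNReal.ofReal (V ^ d) * ∫⁻ y, f y ^ (d + 1)) := by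
          rw [Finset.sum_const, nsmul_eq_mul]
      _ ≤ ENNReal.ofReal (25 ^ d) * (ENNReal.ofReal (V ^ d) * ∫⁻ y, f y ^ (d + 1)) := by
          gcongr
          rw [← ENNReal.ofReal_natCast]
          apply ENNReal.ofReal_le_ofReal
          exact_mod_cast hcard
      _ = ENNReal.ofReal (25 ^ d * V ^ d) * ∫⁻ y, f y ^ (d + 1) := by
          rw [← mul_assoc, ← ENNReal.ofReal_mul (by positivity)]
      _ ≤ _ := by
          refine mul_le_mul_left (ENNReal.ofReal_le_ofReal ?_) _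
          have h1 : 1 ≤ 36 ^ (d * d) * δ ^ (d * d) := by
            rw [← mul_pow]
            exact one_le_pow₀ (by linarith)
          have h2 : (25 : ℝ) ^ d * V ^ d ≤ C₂ * δ ^ (d * d) := by
            rw [hC₂, mul_assoc]
            exact le_mul_of_one_le_right (by positivity) h1
          have h3 : 0 ≤ C₁ * δ ^ (d * d) := by positivity
          rw [add_mul]
          linarith

end Pool.Agent.H668.Lat
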