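import Pool.Agent.H668.Lat.Core

/-!
# Lattice directions: one slab
-/

set_option autoImplicit false

open Finset MeasureTheory
open scoped ENNReal

namespace Pool.Agent.H668.Lat
open Pool.Agent.H822 (KC KC_nonneg)

/-- Jensen / Hölder for a finite measure -/
theorem pow_lint_le {α : Type*} [MeasurableSpace α] (ν : Measure α) (d : ℕ) {f : α → ℝ≥0∞}
    (hf : AEMeasurable f ν) :
    (∫⁻ a, f a ∂ν) ^ (d + 1) ≤ (ν Set.univ) ^ d * ∫⁻ a, f a ^ (d + 1) ∂ν := by
  rcases Nat.eq_zero_or_pos d with rfl | hd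
  · simp
  have hd0 : (0 : ℝ) < d := by exact_mod_cast hd
  have hpq : ((d : ℝ) + 1).HolderConjugate (((d : ℝ) + 1) / d) := by
    rw [Real.holderConjugate_iff]
    refine ⟨by linarith, ?_⟩
    field_simp
    ring
  have h := ENNReal.lintegral_mul_le_Lp_mul_Lq ν hpq hf (g := fun _ => 1) aemeasurable_const
  simp only [Pi.mul_apply, mul_one, ENNReal.one_rpow, lintegral_const, one_mul] at h
  have h2 := pow_le_pow_left' h (d + 1)
  refine h2.trans (le_of_eq ?_)
  rw [mul_pow, ← ENNReal.rpow_natCast, ← ENNReal.rpow_mul, ← ENNReal.rpow_natCast,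
    ← ENNReal.rpow_mul, mul_comm]
  congr 1
  · have e : 1 / (((d : ℝ) + 1) / d) * ((d + 1 : ℕ) : ℝ) = d := by
      push_cast
      field_simp
    rw [e, ENNReal.rpow_natCast]
  · have e : 1 / ((d : ℝ) + 1) * ((d + 1 : ℕ) : ℝ) = 1 := by
      push_cast
      field_simp
    rw [e, ENNReal.rpow_one]
    refine lintegral_congr fun a => ?_
    have e2 : ((d : ℝ) + 1) = ((d + 1 : ℕ) : ℝ) := by push_cast; ring
    rw [e2, ENNReal.rpow_natCast]

/-- splitting an interval of length one into `p` translates -/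
theorem split_Ico (p : ℕ) (hp : 0 < p) (τ : ℝ) (F : ℝ → ℝ≥0∞) :
    ∫⁻ t in Set.Ico τ (τ + 1), F t =
      ∑ j ∈ range p, ∫⁻ θ in Set.Ico τ (τ + 1 / p), F (θ + j / p) := by
  have hp0 : (0 : ℝ) < p := by exact_mod_cast hp
  have h1 : ∀ m : ℕ, ∫⁻ t in Set.Ico τ (τ + m / p), F t =
      ∑ j ∈ range m, ∫⁻ θ in Set.Ico τ (τ + 1 / p), F (θ + j / p) := by
    intro m
    induction m with
    | zero => simp
    | succ m ih =>
      rw [Finset.sum_range_succ, ← ih]
      have hle1 : τ ≤ τ + m / p := by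
        have : (0 : ℝ) ≤ m / p := by positivity
        linarith
      have e : ((m + 1 : ℕ) : ℝ) / p = m / p + 1 / p := by push_cast; ring
      have hle2 : τ + m / p ≤ τ + ((m + 1 : ℕ) : ℝ) / p := by
        rw [e]
        have : (0 : ℝ) < 1 / p := by positivity
        linarith
      rw [← Set.Ico_union_Ico_eq_Ico hle1 hle2,
        lintegral_union measurableSet_Ico (Set.Ico_disjoint_Ico_same)]
      congr 1
      have h2 := (measurePreserving_add_right volume ((m : ℝ) / p)).setLIntegral_comp_preimage_emb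
        (measurableEmbedding_addRight _) F (Set.Ico (τ + m / p) (τ + ((m + 1 : ℕ) : ℝ) / p))
      rw [← h2, Set.preimage_add_const_Ico]
      congr 3
      · ring
      · rw [e]; ring
  have h2 := h1 p
  rw [div_self hp0.ne'] at h2
  exact h2

/-- the local integral over a cube -/
noncomputable def loc {d : ℕ} (δ : ℝ) (f : ℝ × (Fin d → ℝ) → ℝ≥0∞) (t : ℝ) (x : Fin d → ℝ) : ℝ≥0∞ :=
  ∫⁻ y in Metric.closedBall x δ, f (t, y)

theorem loc_pow_le {d : ℕ} {δ : ℝ} (hδ : 0 < δ) {f : ℝ × (Fin d → ℝ) → ℝ≥0∞} (hf : Measurable f)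
    (t : ℝ) (x : Fin d → ℝ) {U : Set (Fin d → ℝ)} (hU : Metric.closedBall x δ ⊆ U) :
    loc δ f t x ^ (d + 1) ≤ ENNReal.ofReal (2 * δ) ^ (d * d) * ∫⁻ y in U, f (t, y) ^ (d + 1) := by
  have hm : Measurable fun y : Fin d → ℝ => f (t, y) := hf.comp measurable_prodMk_left
  have h := pow_lint_le (volume.restrict (Metric.closedBall x δ)) d hm.aemeasurable
  refine h.trans ?_
  rw [Measure.restrict_apply_univ, Real.volume_pi_closedBall x hδ.le, Fintype.card_fin,
    ENNReal.ofReal_pow (by positivity), ← pow_mul]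
  gcongr

/-- at most `3 ^ d` cells -/
theorem count_cells {d : ℕ} (z : Fin d → ℝ) :
    ∑' w : Fin d → ℤ, (if (∀ i, (w i : ℝ) - 1 ≤ z i ∧ z i < w i + 2) then (1 : ℝ≥0∞) else 0) ≤
      3 ^ d := by
  classical
  set s : Finset (Fin d → ℤ) := Fintype.piFinset fun i => Finset.Icc (⌊z i⌋ - 1) (⌊z i⌋ + 1) with hs
  have hsub : ∀ w : Fin d → ℤ, w ∉ s →
      (if (∀ i, (w i : ℝ) - 1 ≤ z i ∧ z i < w i + 2) then (1 : ℝ≥0∞) else 0) = 0 := by
    intro w hw
    rw [if_neg]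
    intro h
    apply hw
    rw [hs, Fintype.mem_piFinset]
    intro i
    rw [Finset.mem_Icc]
    obtain ⟨h1, h2⟩ := h i
    constructor
    · have : ⌊z i⌋ < w i + 2 := by
        rw [Int.floor_lt]; push_cast; exact h2
      omega
    · have : w i - 1 ≤ ⌊z i⌋ := by
        rw [Int.le_floor]; push_cast; exact h1
      omega
  rw [tsum_eq_sum hsub]
  calc ∑ w ∈ s, (if (∀ i, (w i : ℝ) - 1 ≤ z i ∧ z i < w i + 2) then (1 : ℝ≥0∞) else 0)
      ≤ ∑ _w ∈ s, (1 : ℝ≥0∞) := by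
        refine Finset.sum_le_sum fun w _ => ?_
        split_ifs <;> simp
    _ = 3 ^ d := by
        rw [Finset.sum_const, hs, Fintype.card_piFinset, nsmul_eq_mul, mul_one]
        have : ∀ i, (Finset.Icc (⌊z i⌋ - 1) (⌊z i⌋ + 1)).card = 3 := by
          intro i
          rw [Int.card_Icc]
          omega
        simp only [this, Finset.prod_const, Finset.card_univ, Fintype.card_fin]
        push_cast
        rfl

/-- the sum of the integrals over the cells -/
theorem sum_cells {d : ℕ} (Φ : (Fin d → ℝ) → Fin d → ℝ) (hΦ : Measurable Φ)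
    (F : (Fin d → ℝ) → ℝ≥0∞) (hF : Measurable F) :
    ∑' w : Fin d → ℤ, ∫⁻ y in {y | ∀ i, (w i : ℝ) - 1 ≤ Φ y i ∧ Φ y i < w i + 2}, F y ≤
      3 ^ d * ∫⁻ y, F y := by
  classical
  have hmeas : ∀ w : Fin d → ℤ,
      MeasurableSet {y : Fin d → ℝ | ∀ i, (w i : ℝ) - 1 ≤ Φ y i ∧ Φ y i < w i + 2} := by
    intro w
    have e : {y : Fin d → ℝ | ∀ i, (w i : ℝ) - 1 ≤ Φ y i ∧ Φ y i < w i + 2} =
        ⋂ i, {y | (w i : ℝ) - 1 ≤ Φ y i ∧ Φ y i < w i + 2} := by
      ext y; simp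
    rw [e]
    refine MeasurableSet.iInter fun i => ?_
    have hi : Measurable fun y => Φ y i := (measurable_pi_apply i).comp hΦ
    exact (measurableSet_le measurable_const hi).inter (measurableSet_lt hi measurable_const)
  calc ∑' w : Fin d → ℤ, ∫⁻ y in {y | ∀ i, (w i : ℝ) - 1 ≤ Φ y i ∧ Φ y i < w i + 2}, F y
      = ∑' w : Fin d → ℤ, ∫⁻ y, (if (∀ i, (w i : ℝ) - 1 ≤ Φ y i ∧ Φ y i < w i + 2)
          then (1 : ℝ≥0∞) else 0) * F y := by
        refine tsum_congr fun w => ?_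
        rw [← lintegral_indicator (hmeas w)]
        refine lintegral_congr fun y => ?_
        by_cases h : ∀ i, (w i : ℝ) - 1 ≤ Φ y i ∧ Φ y i < w i + 2
        · rw [Set.indicator_of_mem (show y ∈ {y | ∀ i, (w i : ℝ) - 1 ≤ Φ y i ∧ Φ y i < w i + 2} from h),
            if_pos h, one_mul]
        · rw [Set.indicator_of_notMem (show y ∉ {y | ∀ i, (w i : ℝ) - 1 ≤ Φ y i ∧ Φ y i < w i + 2}
            from h), if_neg h, zero_mul]
    _ = ∫⁻ y, ∑' w : Fin d → ℤ, (if (∀ i, (w i : ℝ) - 1 ≤ Φ y i ∧ Φ y i < w i + 2)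
          then (1 : ℝ≥0∞) else 0) * F y := by
        rw [lintegral_tsum]
        intro w
        refine AEMeasurable.mul ?_ hF.aemeasurable
        exact (Measurable.ite (hmeas w) measurable_const measurable_const).aemeasurable
    _ ≤ ∫⁻ y, 3 ^ d * F y := by
        refine lintegral_mono fun y => ?_
        rw [ENNReal.tsum_mul_right]
        gcongr
        exact count_cells (Φ y)
    _ = _ := lintegral_const_mul _ hF

/-- the inverse of a linear map which is bounded below -/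
theorem exists_inv {d : ℕ} {c : ℝ} (hc : 0 < c) (M : (Fin d → ℝ) →ₗ[ℝ] (Fin d → ℝ))
    (hM : ∀ x, c * ‖x‖ ≤ ‖M x‖) :
    ∃ L : (Fin d → ℝ) →ₗ[ℝ] (Fin d → ℝ), (∀ x, L (M x) = x) ∧ ∀ u, c * ‖L u‖ ≤ ‖u‖ := by
  have hinj : Function.Injective M := by
    rw [← LinearMap.ker_eq_bot, LinearMap.ker_eq_bot']
    intro x hx
    have h := hM x
    rw [hx, norm_zero] at h
    have h2 : ‖x‖ ≤ 0 := by
      by_contra hcon
      push Not at hcon
      have := mul_pos hc hcon
      linarith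
    exact norm_le_zero_iff.1 h2
  have hsurj : Function.Surjective M := LinearMap.injective_iff_surjective.1 hinj
  set E := LinearEquiv.ofBijective M ⟨hinj, hsurj⟩ with hE
  refine ⟨E.symm.toLinearMap, fun x => ?_, fun u => ?_⟩
  · exact E.symm_apply_apply x
  · have h := hM (E.symm u)
    have h2 : M (E.symm u) = u := E.apply_symm_apply u
    rw [h2] at h
    exact h

/-- **one height modulo `1/p`** -/
theorem fixed_height {d : ℕ} (hd : 1 ≤ d) (p : ℕ) [Fact p.Prime] {δ : ℝ} (hδ : 0 < δ)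
    (M : (Fin d → ℝ) →ₗ[ℝ] (Fin d → ℝ)) (hM : ∀ x, p * δ * ‖x‖ ≤ ‖M x‖) (w₀ : Fin d → ℝ)
    (A : Finset (Fin d → ℤ)) (m : ℕ)
    (hA : ∀ z : Fin d → ZMod p, (A.filter fun k => red p k = z).card ≤ m)
    (a : (Fin d → ℤ) → Fin d → ℝ) {f : ℝ × (Fin d → ℝ) → ℝ≥0∞} (hf : Measurable f) (θ : ℝ) :
    ∑ k ∈ A, (∑ j ∈ range p, loc δ f (θ + j / p)
        (a k + (θ + j / p) • (w₀ + M fun i => (k i : ℝ)))) ^ (d + 1) ≤
      m * ENNReal.ofReal (KC d) * (p : ℝ≥0∞) ^ d * (ENNReal.ofReal (2 * δ) ^ (d * d) * 3 ^ d) *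
        ∑ j ∈ range p, ∫⁻ y, f (θ + j / p, y) ^ (d + 1) := by
  classical
  have hp0 : (0 : ℝ) < p := by exact_mod_cast (Fact.out : p.Prime).pos
  obtain ⟨L, hLM, hL⟩ := exists_inv (by positivity : (0 : ℝ) < p * δ) M hM
  set Φ : ℕ → (Fin d → ℝ) → Fin d → ℝ := fun j y => (p : ℝ) • L y - (j : ℝ) • L w₀ with hΦ
  have hΦm : ∀ j, Measurable (Φ j) := by
    intro j
    have : Continuous (Φ j) := by
      have hc : Continuous fun y : Fin d → ℝ => L y := L.continuous_of_finiteDimensional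
      rw [hΦ]
      exact (hc.const_smul (p : ℝ)).sub continuous_const
    exact this.measurable
  set U : ℕ → (Fin d → ℤ) → Set (Fin d → ℝ) := fun j w =>
    {y | ∀ i, (w i : ℝ) - 1 ≤ Φ j y i ∧ Φ j y i < w i + 2} with hU
  set h : ℕ → (Fin d → ℤ) → ℝ≥0∞ := fun j w =>
    (ENNReal.ofReal (2 * δ) ^ (d * d) * ∫⁻ y in U j w, f (θ + j / p, y) ^ (d + 1)) ^
      (1 / ((d : ℝ) + 1)) with hh
  have hd1 : (0 : ℝ) < (d : ℝ) + 1 := by positivity
  have hpow : ∀ j w, h j w ^ (d + 1) =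
      ENNReal.ofReal (2 * δ) ^ (d * d) * ∫⁻ y in U j w, f (θ + j / p, y) ^ (d + 1) := by
    intro j w
    rw [hh]
    dsimp only
    rw [← ENNReal.rpow_natCast, ← ENNReal.rpow_mul]
    have e : 1 / ((d : ℝ) + 1) * ((d + 1 : ℕ) : ℝ) = 1 := by
      push_cast
      field_simp
    rw [e, ENNReal.rpow_one]
  set y : (Fin d → ℤ) → Fin d → ℤ := fun k i =>
    ⌊((p : ℝ) • L (a k + θ • (w₀ + M fun i => (k i : ℝ)))) i⌋ with hy
  have hle : ∀ k ∈ A, ∀ j ∈ range p, loc δ f (θ + j / p)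
      (a k + (θ + j / p) • (w₀ + M fun i => (k i : ℝ))) ≤ h j (y k + (j : ℤ) • k) := by
    intro k _ j _
    have h1 : loc δ f (θ + j / p) (a k + (θ + j / p) • (w₀ + M fun i => (k i : ℝ))) ^ (d + 1) ≤
        h j (y k + (j : ℤ) • k) ^ (d + 1) := by
      rw [hpow]
      refine loc_pow_le hδ hf _ _ ?_
      intro u hu
      rw [hU]
      intro i
      set x : Fin d → ℝ := a k + (θ + j / p) • (w₀ + M fun i => (k i : ℝ)) with hx
      have hux : ‖u - x‖ ≤ δ := by rwa [← dist_eq_norm, ← Metric.mem_closedBall]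
      -- the decomposition
      have e1 : Φ j u = (p : ℝ) • L (a k + θ • (w₀ + M fun i => (k i : ℝ))) +
          (j : ℝ) • (fun i => (k i : ℝ)) + (p : ℝ) • L (u - x) := by
        have e2 : u = (a k + θ • (w₀ + M fun i => (k i : ℝ))) +
            ((j : ℝ) / p) • (w₀ + M fun i => (k i : ℝ)) + (u - x) := by
          rw [hx, add_smul]; abel
        have h4 := hLM fun i => (k i : ℝ)
        generalize (a k + θ • (w₀ + M fun i => (k i : ℝ))) = X₀ at e2 ⊢
        generalize u - x = D at e2 ⊢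
        have e3 : L u = L X₀ + ((j : ℝ) / p) • (L w₀ + fun i => (k i : ℝ)) + L D := by
          rw [e2, map_add, map_add, map_smul, map_add, h4]
        rw [hΦ]
        dsimp only
        rw [e3, smul_add, smul_add, smul_smul, mul_div_cancel₀ _ hp0.ne', smul_add]
        abel
      have h2 : |((p : ℝ) • L (u - x)) i| ≤ 1 := by
        have h3 : ‖(p : ℝ) • L (u - x)‖ ≤ 1 := by
          rw [norm_smul, Real.norm_eq_abs, abs_of_pos hp0]
          have h4 := hL (u - x)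
          have h5 : (p : ℝ) * δ * ‖L (u - x)‖ ≤ δ := h4.trans hux
          have h6 : δ * (p * ‖L (u - x)‖) ≤ δ * 1 := by
            calc δ * (p * ‖L (u - x)‖) = (p : ℝ) * δ * ‖L (u - x)‖ := by ring
              _ ≤ δ * 1 := by rw [mul_one]; exact h5
          exact le_of_mul_le_mul_left h6 hδ
        exact (norm_le_pi_norm _ i).trans h3
      rw [abs_le] at h2
      have h7 : Φ j u i = ((p : ℝ) • L (a k + θ • (w₀ + M fun i => (k i : ℝ)))) i +
          (j : ℝ) * (k i : ℝ) + ((p : ℝ) • L (u - x)) i := by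
        rw [e1]
        simp only [Pi.add_apply, Pi.smul_apply, smul_eq_mul]
      have h8 := Int.floor_le (((p : ℝ) • L (a k + θ • (w₀ + M fun i => (k i : ℝ)))) i)
      have h9 := Int.lt_floor_add_one (((p : ℝ) • L (a k + θ • (w₀ + M fun i => (k i : ℝ)))) i)
      have h10 : (((y k + (j : ℤ) • k) i : ℤ) : ℝ) =
          (⌊((p : ℝ) • L (a k + θ • (w₀ + M fun i => (k i : ℝ)))) i⌋ : ℝ) + (j : ℝ) * (k i : ℝ) := by
        simp only [Pi.add_apply, Pi.smul_apply, smul_eq_mul, hy]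
        push_cast
        ring
      rw [h10, h7]
      constructor
      · linarith [h2.1]
      · linarith [h2.2]
    by_contra hcon
    push Not at hcon
    have h11 := ENNReal.pow_lt_pow_left (Nat.succ_ne_zero d) hcon
    exact absurd h1 (not_le.2 h11)
  have hcore := core hd p h A m hA y
  refine le_trans (Finset.sum_le_sum fun k hk => pow_le_pow_left'
    (Finset.sum_le_sum fun j hj => hle k hk j hj) _) (hcore.trans ?_)
  have hj : ∀ j ∈ range p, ∑' w, h j w ^ (d + 1) ≤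
      (ENNReal.ofReal (2 * δ) ^ (d * d) * 3 ^ d) * ∫⁻ y, f (θ + j / p, y) ^ (d + 1) := by
    intro j _
    calc ∑' w, h j w ^ (d + 1)
      = ∑' w, ENNReal.ofReal (2 * δ) ^ (d * d) * ∫⁻ y in U j w, f (θ + j / p, y) ^ (d + 1) :=
        tsum_congr fun w => hpow j w
    _ = ENNReal.ofReal (2 * δ) ^ (d * d) * ∑' w, ∫⁻ y in U j w, f (θ + j / p, y) ^ (d + 1) :=
        ENNReal.tsum_mul_left
    _ ≤ ENNReal.ofReal (2 * δ) ^ (d * d) * (3 ^ d * ∫⁻ y, f (θ + j / p, y) ^ (d + 1)) := by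
        gcongr
        exact sum_cells (Φ j) (hΦm j) _ ((hf.comp measurable_prodMk_left).pow_const _)
    _ = _ := by rw [mul_assoc]
  calc m * ENNReal.ofReal (KC d) * (p : ℝ≥0∞) ^ d * ∑ j ∈ range p, ∑' w, h j w ^ (d + 1)
      ≤ m * ENNReal.ofReal (KC d) * (p : ℝ≥0∞) ^ d * ∑ j ∈ range p,
          (ENNReal.ofReal (2 * δ) ^ (d * d) * 3 ^ d) * ∫⁻ y, f (θ + j / p, y) ^ (d + 1) := by
        gcongr with j hjr
        exact hj j hjr
    _ = _ := by
        rw [← Finset.mul_sum]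
        ring

theorem loc_measurable {d : ℕ} {δ : ℝ} {f : ℝ × (Fin d → ℝ) → ℝ≥0∞} (hf : Measurable f)
    (x : ℝ → Fin d → ℝ) (hx : Measurable x) : Measurable fun t => loc δ f t (x t) := by
  unfold loc
  have h1 : ∀ t, ∫⁻ y in Metric.closedBall (x t) δ, f (t, y) =
      ∫⁻ y, (Set.indicator {q : ℝ × (Fin d → ℝ) | q.2 ∈ Metric.closedBall (x q.1) δ} f) (t, y) := by
    intro t
    rw [← lintegral_indicator Metric.isClosed_closedBall.measurableSet]
    refine lintegral_congr fun y => ?_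
    by_cases h : y ∈ Metric.closedBall (x t) δ
    · rw [Set.indicator_of_mem h, Set.indicator_of_mem (show (t, y) ∈ {q : ℝ × (Fin d → ℝ) |
        q.2 ∈ Metric.closedBall (x q.1) δ} from h)]
    · rw [Set.indicator_of_notMem h, Set.indicator_of_notMem (show (t, y) ∉ {q : ℝ × (Fin d → ℝ) |
        q.2 ∈ Metric.closedBall (x q.1) δ} from h)]
  simp_rw [h1]
  have hset : MeasurableSet {q : ℝ × (Fin d → ℝ) | q.2 ∈ Metric.closedBall (x q.1) δ} := by
    have e : {q : ℝ × (Fin d → ℝ) | q.2 ∈ Metric.closedBall (x q.1) δ} =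
        {q | dist q.2 (x q.1) ≤ δ} := by
      ext q; simp [Metric.mem_closedBall]
    rw [e]
    exact measurableSet_le (measurable_snd.dist (hx.comp measurable_fst)) measurable_const
  exact (hf.indicator hset).lintegral_prod_right'

/-- **one slab** -/
theorem slab {d : ℕ} (hd : 1 ≤ d) (p : ℕ) [Fact p.Prime] {δ : ℝ} (hδ : 0 < δ)
    (M : (Fin d → ℝ) →ₗ[ℝ] (Fin d → ℝ)) (hM : ∀ x, p * δ * ‖x‖ ≤ ‖M x‖) (w₀ : Fin d → ℝ)
    (A : Finset (Fin d → ℤ)) (m : ℕ)
    (hA : ∀ z : Fin d → ZMod p, (A.filter fun k => red p k = z).card ≤ m)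
    (a : (Fin d → ℤ) → Fin d → ℝ) {f : ℝ × (Fin d → ℝ) → ℝ≥0∞} (hf : Measurable f) (τ : ℝ) :
    ∑ k ∈ A, (∫⁻ t in Set.Ico τ (τ + 1), loc δ f t
        (a k + t • (w₀ + M fun i => (k i : ℝ)))) ^ (d + 1) ≤
      m * ENNReal.ofReal (KC d) * (ENNReal.ofReal (2 * δ) ^ (d * d) * 3 ^ d) *
        ∫⁻ t in Set.Ico τ (τ + 1), ∫⁻ y, f (t, y) ^ (d + 1) := by
  classical
  have hpn : 0 < p := (Fact.out : p.Prime).pos
  have hp0 : (0 : ℝ) < p := by exact_mod_cast hpn
  have hpE : (p : ℝ≥0∞) ≠ 0 := by exact_mod_cast hpn.ne'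
  have hpT : (p : ℝ≥0∞) ≠ ⊤ := ENNReal.natCast_ne_top p
  set I := Set.Ico τ (τ + 1 / p) with hI
  have hvol : volume I = (p : ℝ≥0∞)⁻¹ := by
    rw [hI, Real.volume_Ico, add_sub_cancel_left, one_div, ENNReal.ofReal_inv_of_pos hp0,
      ENNReal.ofReal_natCast]
  set v : (Fin d → ℤ) → Fin d → ℝ := fun k => w₀ + M fun i => (k i : ℝ) with hv
  have hgm : ∀ k, Measurable fun t : ℝ => loc δ f t (a k + t • v k) := by
    intro k
    refine loc_measurable hf _ ?_
    fun_prop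
  have hterm : ∀ k, (∫⁻ t in Set.Ico τ (τ + 1), loc δ f t (a k + t • v k)) ^ (d + 1) ≤
      ((p : ℝ≥0∞)⁻¹) ^ d * ∫⁻ θ in I,
        (∑ j ∈ range p, loc δ f (θ + j / p) (a k + (θ + j / p) • v k)) ^ (d + 1) := by
    intro k
    rw [split_Ico p hpn τ, ← lintegral_finsetSum]
    · have h1 := pow_lint_le (volume.restrict I) d (f := fun θ => ∑ j ∈ range p,
        loc δ f (θ + j / p) (a k + (θ + j / p) • v k)) (by
          refine (Finset.measurable_fun_sum _ fun j _ => ?_).aemeasurable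
          exact (hgm k).comp (measurable_id.add_const _))
      rw [Measure.restrict_apply_univ, hvol] at h1
      exact h1
    · intro j _
      exact (hgm k).comp (measurable_id.add_const _)
  calc ∑ k ∈ A, (∫⁻ t in Set.Ico τ (τ + 1), loc δ f t (a k + t • v k)) ^ (d + 1)
      ≤ ∑ k ∈ A, ((p : ℝ≥0∞)⁻¹) ^ d * ∫⁻ θ in I,
        (∑ j ∈ range p, loc δ f (θ + j / p) (a k + (θ + j / p) • v k)) ^ (d + 1) :=
        Finset.sum_le_sum fun k _ => hterm k
    _ = ((p : ℝ≥0∞)⁻¹) ^ d * ∫⁻ θ in I, ∑ k ∈ A,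
        (∑ j ∈ range p, loc δ f (θ + j / p) (a k + (θ + j / p) • v k)) ^ (d + 1) := by
        rw [← Finset.mul_sum, lintegral_finsetSum]
        intro k _
        refine Measurable.pow_const ?_ _
        refine Finset.measurable_fun_sum _ fun j _ => ?_
        exact (hgm k).comp (measurable_id.add_const _)
    _ ≤ ((p : ℝ≥0∞)⁻¹) ^ d * ∫⁻ θ in I, m * ENNReal.ofReal (KC d) * (p : ℝ≥0∞) ^ d *
          (ENNReal.ofReal (2 * δ) ^ (d * d) * 3 ^ d) *
          ∑ j ∈ range p, ∫⁻ y, f (θ + j / p, y) ^ (d + 1) := by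
        gcongr with θ
        exact fixed_height hd p hδ M hM w₀ A m hA a hf θ
    _ = ((p : ℝ≥0∞)⁻¹) ^ d * (m * ENNReal.ofReal (KC d) * (p : ℝ≥0∞) ^ d *
          (ENNReal.ofReal (2 * δ) ^ (d * d) * 3 ^ d) *
          ∫⁻ t in Set.Ico τ (τ + 1), ∫⁻ y, f (t, y) ^ (d + 1)) := by
        have hm2 : Measurable fun t : ℝ => ∫⁻ y, f (t, y) ^ (d + 1) :=
          (hf.pow_const _).lintegral_prod_right'
        rw [lintegral_const_mul, split_Ico p hpn τ, lintegral_finsetSum]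
        · intro j _
          exact hm2.comp (measurable_id.add_const _)
        · refine Finset.measurable_fun_sum _ fun j _ => ?_
          exact hm2.comp (measurable_id.add_const _)
    _ = _ := by
        have e : ((p : ℝ≥0∞)⁻¹) ^ d * (p : ℝ≥0∞) ^ d = 1 := by
          rw [← mul_pow, ENNReal.inv_mul_cancel hpE hpT, one_pow]
        calc ((p : ℝ≥0∞)⁻¹) ^ d * (m * ENNReal.ofReal (KC d) * (p : ℝ≥0∞) ^ d *
          (ENNReal.ofReal (2 * δ) ^ (d * d) * 3 ^ d) *
          ∫⁻ t in Set.Ico τ (τ + 1), ∫⁻ y, f (t, y) ^ (d + 1))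
            = (((p : ℝ≥0∞)⁻¹) ^ d * (p : ℝ≥0∞) ^ d) * (m * ENNReal.ofReal (KC d) *
              (ENNReal.ofReal (2 * δ) ^ (d * d) * 3 ^ d) *
              ∫⁻ t in Set.Ico τ (τ + 1), ∫⁻ y, f (t, y) ^ (d + 1)) := by ring
          _ = _ := by rw [e, one_mul]

end Pool.Agent.H668.Lat
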