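import Pool.Agent.H668.Lat.Slab
import Pool.Agent.W46.KK.Tubes

/-!
# Lattice directions: tubes at arbitrary heights
-/

set_option autoImplicit false

open Finset MeasureTheory
open scoped ENNReal

namespace Pool.Agent.H668.Lat
open Pool.Agent.H822 (KC KC_nonneg)
open Pool.Agent.W46.KK (tube eqv eqv_mp eqv_symm)

/-- the vector `(1, v)` -/
noncomputable def vec {d : ℕ} (v : Fin d → ℝ) : EuclideanSpace ℝ (Fin (d + 1)) :=
  WithLp.toLp 2 (Fin.cons 1 v)

/-- the direction of `(1, v)` -/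
noncomputable def dir {d : ℕ} (v : Fin d → ℝ) : EuclideanSpace ℝ (Fin (d + 1)) :=
  ‖vec v‖⁻¹ • vec v

theorem one_le_vec {d : ℕ} (v : Fin d → ℝ) : 1 ≤ ‖vec v‖ := by
  have := PiLp.norm_apply_le (vec v) 0
  have h0 : (vec v) 0 = 1 := rfl
  rw [h0] at this
  simpa using this

/-- points of a tube whose direction is close to `dir v` -/
theorem tube_near {d : ℕ} {δ : ℝ} (hδ : 0 < δ) (hδ1 : δ < 1) {a e y : EuclideanSpace ℝ (Fin (d + 1))}
    {v : Fin d → ℝ} (hv : ‖v‖ ≤ 1) (he : ‖e - dir v‖ ≤ δ) (hy : y ∈ tube δ a e) :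
    |y 0 - a 0| ≤ 2 ∧ ∀ i : Fin d,
      |y (Fin.succ i) - ((a (Fin.succ i) - a 0 * v i) + y 0 * v i)| ≤ 3 * δ := by
  obtain ⟨h1, h2⟩ := hy
  set s : ℝ := inner ℝ (y - a) e with hs
  set u : EuclideanSpace ℝ (Fin (d + 1)) := (y - a) - s • dir v with hu
  have hun : ‖u‖ ≤ 3 / 2 * δ := by
    have e1 : u = ((y - a) - s • e) + s • (e - dir v) := by
      rw [hu, smul_sub]; abel
    rw [e1]
    refine (norm_add_le _ _).trans ?_
    rw [norm_smul, Real.norm_eq_abs]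
    have h3 : |s| * ‖e - dir v‖ ≤ 1 / 2 * δ := mul_le_mul h1 he (norm_nonneg _) (by norm_num)
    linarith
  have hui : ∀ i, |u i| ≤ 3 / 2 * δ := by
    intro i
    have := PiLp.norm_apply_le u i
    rw [Real.norm_eq_abs] at this
    exact this.trans hun
  set c : ℝ := s * ‖vec v‖⁻¹ with hc
  have hcle : |c| ≤ 1 / 2 := by
    rw [hc, abs_mul, abs_inv, abs_norm]
    have h4 : ‖vec v‖⁻¹ ≤ 1 := inv_le_one_of_one_le₀ (one_le_vec v)
    calc |s| * ‖vec v‖⁻¹ ≤ 1 / 2 * 1 := mul_le_mul h1 h4 (by positivity) (by norm_num)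
      _ = 1 / 2 := by norm_num
  have e0 : y 0 - a 0 = c + u 0 := by
    have : u 0 = (y 0 - a 0) - s * (‖vec v‖⁻¹ * 1) := rfl
    rw [this, hc]; ring
  have ei : ∀ i : Fin d, y (Fin.succ i) - a (Fin.succ i) = c * v i + u (Fin.succ i) := by
    intro i
    have : u (Fin.succ i) = (y (Fin.succ i) - a (Fin.succ i)) - s * (‖vec v‖⁻¹ * v i) := rfl
    rw [this, hc]; ring
  constructor
  · rw [e0]
    have := abs_add_le c (u 0)
    have := hui 0
    linarith
  · intro i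
    have e2 : y (Fin.succ i) - ((a (Fin.succ i) - a 0 * v i) + y 0 * v i) =
        u (Fin.succ i) - u 0 * v i := by
      have h5 := ei i
      have h6 : y 0 * v i = (a 0 + (c + u 0)) * v i := by rw [← e0]; ring
      linarith [h5, h6]
    rw [e2]
    have h7 : |u 0 * v i| ≤ 3 / 2 * δ := by
      rw [abs_mul]
      have h8 : |v i| ≤ 1 := (norm_le_pi_norm v i).trans hv
      calc |u 0| * |v i| ≤ (3 / 2 * δ) * 1 :=
            mul_le_mul (hui 0) h8 (abs_nonneg _) (by positivity)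
        _ = 3 / 2 * δ := mul_one _
    have := abs_sub (u (Fin.succ i)) (u 0 * v i)
    have := hui (Fin.succ i)
    linarith

/-- splitting five units -/
theorem split_five (τ : ℝ) (F : ℝ → ℝ≥0∞) :
    ∫⁻ t in Set.Ico τ (τ + 5), F t =
      ∑ q ∈ range 5, ∫⁻ t in Set.Ico (τ + q) (τ + q + 1), F t := by
  have h1 : ∀ m : ℕ, ∫⁻ t in Set.Ico τ (τ + m), F t =
      ∑ q ∈ range m, ∫⁻ t in Set.Ico (τ + q) (τ + q + 1), F t := by
    intro m
    induction m with
    | zero => simp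
    | succ m ih =>
      rw [Finset.sum_range_succ, ← ih]
      have hle1 : τ ≤ τ + m := by
        have : (0 : ℝ) ≤ m := Nat.cast_nonneg m
        linarith
      have e : τ + ((m + 1 : ℕ) : ℝ) = τ + m + 1 := by push_cast; ring
      rw [e, ← Set.Ico_union_Ico_eq_Ico hle1 (by linarith : τ + (m : ℝ) ≤ τ + m + 1),
        lintegral_union measurableSet_Ico (Set.Ico_disjoint_Ico_same)]
  have h2 := h1 5
  push_cast at h2
  exact h2

/-- the integral over a tube in slab coordinates -/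
theorem tube_int {d : ℕ} {δ : ℝ} (hδ : 0 < δ) (hδ1 : δ < 1) {a e : EuclideanSpace ℝ (Fin (d + 1))}
    {v : Fin d → ℝ} (hv : ‖v‖ ≤ 1) (he : ‖e - dir v‖ ≤ δ)
    (f : EuclideanSpace ℝ (Fin (d + 1)) → ℝ≥0∞) (hf : Measurable f) :
    ∫⁻ y in tube δ a e, f y ≤
      ∑ q ∈ range 5, ∫⁻ t in Set.Ico ((⌊a 0 - 2⌋ : ℝ) + q) ((⌊a 0 - 2⌋ : ℝ) + q + 1),
        loc (3 * δ) (f ∘ (eqv d).symm) t ((fun i => a (Fin.succ i) - a 0 * v i) + t • v) := by
  classical
  rw [← split_five]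
  set τ : ℝ := (⌊a 0 - 2⌋ : ℝ) with hτ
  set x : ℝ → Fin d → ℝ := fun t => (fun i => a (Fin.succ i) - a 0 * v i) + t • v with hx
  set g : ℝ × (Fin d → ℝ) → ℝ≥0∞ := f ∘ (eqv d).symm with hg
  have hgm : Measurable g := hf.comp (eqv d).symm.measurable
  have hxm : Measurable x := by rw [hx]; fun_prop
  set T : Set (ℝ × (Fin d → ℝ)) := {z | z.1 ∈ Set.Ico τ (τ + 5) ∧ z.2 ∈ Metric.closedBall (x z.1) (3 * δ)}
    with hT
  have hTm : MeasurableSet T := by
    have e1 : T = (Prod.fst ⁻¹' Set.Ico τ (τ + 5)) ∩ {z | dist z.2 (x z.1) ≤ 3 * δ} := by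
      ext z; simp [hT, Metric.mem_closedBall]
    rw [e1]
    exact (measurable_fst measurableSet_Ico).inter
      (measurableSet_le (measurable_snd.dist (hxm.comp measurable_fst)) measurable_const)
  have hsub : tube δ a e ⊆ (eqv d) ⁻¹' T := by
    intro y hy
    obtain ⟨h1, h2⟩ := tube_near hδ hδ1 hv he hy
    have e0 : ((eqv d) y).1 = y 0 := rfl
    have ei : ∀ i, ((eqv d) y).2 i = y (Fin.succ i) := fun i => rfl
    rw [abs_le] at h1
    have h3 := Int.floor_le (a 0 - 2)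
    have h4 := Int.lt_floor_add_one (a 0 - 2)
    refine ⟨?_, ?_⟩
    · rw [e0]
      constructor
      · linarith [h1.1]
      · linarith [h1.2]
    · rw [Metric.mem_closedBall, dist_pi_le_iff (by positivity)]
      intro i
      rw [Real.dist_eq, ei, e0]
      exact h2 i
  calc ∫⁻ y in tube δ a e, f y ≤ ∫⁻ y in (eqv d) ⁻¹' T, f y := lintegral_mono_set hsub
    _ = ∫⁻ y in (eqv d) ⁻¹' T, g ((eqv d) y) := by
        refine lintegral_congr fun y => ?_
        rw [hg, Function.comp_apply, MeasurableEquiv.symm_apply_apply]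
    _ = ∫⁻ z in T, g z :=
        (eqv_mp d).setLIntegral_comp_preimage_emb (eqv d).measurableEmbedding g T
    _ = ∫⁻ z, T.indicator g z := (lintegral_indicator hTm _).symm
    _ = ∫⁻ t, ∫⁻ y, T.indicator g (t, y) := by
        rw [Measure.volume_eq_prod, lintegral_prod _ (hgm.indicator hTm).aemeasurable]
    _ = ∫⁻ t in Set.Ico τ (τ + 5), loc (3 * δ) g t (x t) := by
        rw [← lintegral_indicator measurableSet_Ico]
        refine lintegral_congr fun t => ?_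
        by_cases ht : t ∈ Set.Ico τ (τ + 5)
        · rw [Set.indicator_of_mem ht, loc,
            ← lintegral_indicator Metric.isClosed_closedBall.measurableSet]
          refine lintegral_congr fun y => ?_
          by_cases hy : y ∈ Metric.closedBall (x t) (3 * δ)
          · rw [Set.indicator_of_mem hy, Set.indicator_of_mem (show (t, y) ∈ T from ⟨ht, hy⟩)]
          · rw [Set.indicator_of_notMem hy,
              Set.indicator_of_notMem (show (t, y) ∉ T from fun h => hy h.2)]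
        · rw [Set.indicator_of_notMem ht]
          have : ∀ y : Fin d → ℝ, T.indicator g (t, y) = 0 := fun y =>
            Set.indicator_of_notMem (fun h => ht h.1) _
          simp only [this, lintegral_zero]

/-- total integral over slabs -/
theorem sum_slabs (J : Finset ℤ) (F : ℝ → ℝ≥0∞) :
    ∑ i ∈ J, ∫⁻ t in Set.Ico (i : ℝ) (i + 1), F t ≤ ∫⁻ t, F t := by
  rw [← lintegral_biUnion_finset]
  · exact setLIntegral_le_lintegral _ _
  · intro i _ j _ hij
    rw [Function.onFun, Set.disjoint_left]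
    rintro t ht ht'
    apply hij
    have a1 : (i : ℝ) < j + 1 := lt_of_le_of_lt ht.1 ht'.2
    have a2 : (j : ℝ) < i + 1 := lt_of_le_of_lt ht'.1 ht.2
    have b1 : i < j + 1 := by exact_mod_cast a1
    have b2 : j < i + 1 := by exact_mod_cast a2
    omega
  · intro i _
    exact measurableSet_Ico

/-- **tubes in lattice directions**, at most `m` directions in each class modulo `p` -/
theorem tubes_p {d : ℕ} (hd : 1 ≤ d) (p : ℕ) [Fact p.Prime] {δ : ℝ} (hδ : 0 < δ) (hδ1 : δ < 1)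
    (M : (Fin d → ℝ) →ₗ[ℝ] (Fin d → ℝ)) (hM : ∀ x, p * (3 * δ) * ‖x‖ ≤ ‖M x‖) (w₀ : Fin d → ℝ)
    (A : Finset (Fin d → ℤ)) (m : ℕ)
    (hA : ∀ z : Fin d → ZMod p, (A.filter fun k => red p k = z).card ≤ m)
    (hA1 : ∀ k ∈ A, ‖w₀ + M fun i => (k i : ℝ)‖ ≤ 1)
    (a e : (Fin d → ℤ) → EuclideanSpace ℝ (Fin (d + 1)))
    (he : ∀ k ∈ A, ‖e k - dir (w₀ + M fun i => (k i : ℝ))‖ ≤ δ)
    (f : EuclideanSpace ℝ (Fin (d + 1)) → ℝ≥0∞) (hf : Measurable f) :
    ∑ k ∈ A, (∫⁻ y in tube δ (a k) (e k), f y) ^ (d + 1) ≤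
      5 ^ (d + 1) * (m * ENNReal.ofReal (KC d) * (ENNReal.ofReal (2 * (3 * δ)) ^ (d * d) * 3 ^ d)) *
        ∫⁻ y, f y ^ (d + 1) := by
  classical
  set v : (Fin d → ℤ) → Fin d → ℝ := fun k => w₀ + M fun i => (k i : ℝ) with hv
  set g : ℝ × (Fin d → ℝ) → ℝ≥0∞ := f ∘ (eqv d).symm with hg
  have hgm : Measurable g := hf.comp (eqv d).symm.measurable
  set b : (Fin d → ℤ) → Fin d → ℝ := fun k i => a k (Fin.succ i) - a k 0 * v k i with hb
  set G : (Fin d → ℤ) → ℤ → ℝ≥0∞ := fun k i =>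
    ∫⁻ t in Set.Ico (i : ℝ) (i + 1), loc (3 * δ) g t (b k + t • v k) with hG
  set C₁ : ℝ≥0∞ := m * ENNReal.ofReal (KC d) * (ENNReal.ofReal (2 * (3 * δ)) ^ (d * d) * 3 ^ d)
    with hC₁
  have hslab : ∀ (A' : Finset (Fin d → ℤ)), A' ⊆ A → ∀ i : ℤ,
      ∑ k ∈ A', G k i ^ (d + 1) ≤
        C₁ * ∫⁻ t in Set.Ico (i : ℝ) (i + 1), ∫⁻ y, g (t, y) ^ (d + 1) := by
    intro A' hA' i
    refine slab hd p (by positivity : 0 < 3 * δ) M hM w₀ A' m (fun z => ?_) b hgm i
    exact (Finset.card_le_card (Finset.filter_subset_filter _ hA')).trans (hA z)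
  have hone : ∀ k ∈ A, (∫⁻ y in tube δ (a k) (e k), f y) ^ (d + 1) ≤
      5 ^ d * ∑ q ∈ range 5, G k (⌊a k 0 - 2⌋ + q) ^ (d + 1) := by
    intro k hk
    have h1 := tube_int hδ hδ1 (hA1 k hk) (he k hk) f hf (a := a k)
    have h2 : ∑ q ∈ range 5, ∫⁻ t in Set.Ico ((⌊a k 0 - 2⌋ : ℝ) + q) ((⌊a k 0 - 2⌋ : ℝ) + q + 1),
        loc (3 * δ) (f ∘ (eqv d).symm) t ((fun i => a k (Fin.succ i) - a k 0 * v k i) + t • v k) =
        ∑ q ∈ range 5, G k (⌊a k 0 - 2⌋ + q) := by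
      refine Finset.sum_congr rfl fun q _ => ?_
      rw [hG]
      dsimp only
      push_cast
      rfl
    have h1' : (∫⁻ y in tube δ (a k) (e k), f y) ≤ ∑ q ∈ range 5, G k (⌊a k 0 - 2⌋ + q) :=
      h1.trans (le_of_eq h2)
    refine (pow_le_pow_left' h1' _).trans ?_
    have h3 := ENNReal.rpow_sum_le_const_mul_sum_rpow (range 5)
      (fun q : ℕ => G k (⌊a k 0 - 2⌋ + q)) (p := ((d + 1 : ℕ) : ℝ)) (by push_cast; linarith)
    simp only [ENNReal.rpow_natCast, Finset.card_range] at h3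
    refine h3.trans (le_of_eq ?_)
    have e1 : (((d + 1 : ℕ) : ℝ) - 1) = (d : ℝ) := by push_cast; ring
    rw [e1, ENNReal.rpow_natCast]
    norm_num
  have hq : ∀ q : ℕ, ∑ k ∈ A, G k (⌊a k 0 - 2⌋ + q) ^ (d + 1) ≤
      C₁ * ∫⁻ y, f y ^ (d + 1) := by
    intro q
    set s : (Fin d → ℤ) → ℤ := fun k => ⌊a k 0 - 2⌋ + q with hs
    have e1 : ∑ k ∈ A, G k (s k) ^ (d + 1) =
        ∑ i ∈ A.image s, ∑ k ∈ A.filter (fun k => s k = i), G k i ^ (d + 1) := by
      rw [← Finset.sum_fiberwise_of_maps_to (g := s) (t := A.image s)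
        (fun k hk => Finset.mem_image_of_mem _ hk)]
      refine Finset.sum_congr rfl fun i _ => ?_
      refine Finset.sum_congr rfl fun k hk => ?_
      rw [(Finset.mem_filter.1 hk).2]
    rw [e1]
    calc ∑ i ∈ A.image s, ∑ k ∈ A.filter (fun k => s k = i), G k i ^ (d + 1)
        ≤ ∑ i ∈ A.image s, C₁ * ∫⁻ t in Set.Ico (i : ℝ) (i + 1), ∫⁻ y, g (t, y) ^ (d + 1) :=
          Finset.sum_le_sum fun i _ => hslab _ (Finset.filter_subset _ _) i
      _ = C₁ * ∑ i ∈ A.image s, ∫⁻ t in Set.Ico (i : ℝ) (i + 1), ∫⁻ y, g (t, y) ^ (d + 1) := by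
          rw [Finset.mul_sum]
      _ ≤ C₁ * ∫⁻ t, ∫⁻ y, g (t, y) ^ (d + 1) := by
          gcongr
          exact sum_slabs _ _
      _ = C₁ * ∫⁻ z, g z ^ (d + 1) := by
          rw [Measure.volume_eq_prod, lintegral_prod _ (hgm.pow_const _).aemeasurable]
      _ = C₁ * ∫⁻ y, f y ^ (d + 1) := by
          congr 1
          have h4 := (eqv_mp d).symm.lintegral_comp (hf.pow_const (d + 1))
          exact h4
  calc ∑ k ∈ A, (∫⁻ y in tube δ (a k) (e k), f y) ^ (d + 1)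
      ≤ ∑ k ∈ A, 5 ^ d * ∑ q ∈ range 5, G k (⌊a k 0 - 2⌋ + q) ^ (d + 1) :=
        Finset.sum_le_sum fun k hk => hone k hk
    _ = 5 ^ d * ∑ q ∈ range 5, ∑ k ∈ A, G k (⌊a k 0 - 2⌋ + q) ^ (d + 1) := by
        rw [← Finset.mul_sum, Finset.sum_comm]
    _ ≤ 5 ^ d * ∑ _q ∈ range 5, C₁ * ∫⁻ y, f y ^ (d + 1) := by
        gcongr with q
        exact hq q
    _ = 5 ^ (d + 1) * C₁ * ∫⁻ y, f y ^ (d + 1) := by
        rw [Finset.sum_const, Finset.card_range, nsmul_eq_mul, pow_succ]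
        push_cast
        ring

end Pool.Agent.H668.Lat
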